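import Pool.Agent.Helper71.BM.Basic

/-!
# Module BND: at most `N` disjoint paths from the middle parts to the terminals
-/

set_option autoImplicit false

namespace Pool.Agent.Helper71.BM

open Finset ErdPos

variable {V : Type}

lemma bnd_count {α β : Type} (g : α → β → Bool) (c : ℕ) : ∀ (P : List α) (D : List β),
    (∀ r ∈ D, ∃ l ∈ P, g l r = true) → (∀ l ∈ P, (D.filter (g l)).length ≤ c) →
    D.length ≤ P.length * c := by
  intro P
  induction P with
  | nil =>
    intro D h _
    cases D with
    | nil => simp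
    | cons r D =>
      obtain ⟨l, hl, _⟩ := h r (by simp)
      simp at hl
  | cons l P ih =>
    intro D h hc
    have h1 := List.length_eq_length_filter_add (l := D) (g l)
    have h2 := hc l (by simp)
    have h3 := ih (D.filter (fun r => !g l r)) (by
      intro r hr
      rw [List.mem_filter] at hr
      obtain ⟨l', hl', hg⟩ := h r hr.1
      rcases List.mem_cons.1 hl' with rfl | hl'
      · rw [hg] at hr
        simp at hr
      · exact ⟨l', hl', hg⟩) (by
      intro l' hl'
      refine le_trans ?_ (hc l' (by simp [hl']))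
      exact (List.Sublist.filter _ List.filter_sublist).length_le)
    rw [List.length_cons, Nat.succ_mul]
    omega

/-- the two paths of a pair -/
def bndf (r : Rc V) : List (List V) := [r.p, r.p']

lemma bnd_len (D : List (Rc V)) : (D.flatMap bndf).length = 2 * D.length := by
  induction D with
  | nil => rfl
  | cons r D ih =>
    rw [List.flatMap_cons, List.length_append, ih, List.length_cons]
    simp [bndf]
    omega

lemma bnd_tot (D : List (Rc V)) (lam : ℕ) (h : ∀ r ∈ D, r.F.length < lam) :
    (D.flatMap bndf).flatten.length ≤ D.length * lam := by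
  induction D with
  | nil => simp
  | cons r D ih =>
    have h1 := ih (fun r hr => h r (by simp [hr]))
    have h2 := h r (by simp)
    have h3 : r.F.length = r.p.length + ((r.l.drop (r.i + 1)).take (r.j - r.i - 1)).length +
        r.p'.length := by
      simp only [Rc.F, List.length_append, List.length_reverse]
    rw [List.flatMap_cons, List.flatten_append, List.length_append, List.length_cons,
      Nat.succ_mul]
    have h4 : (bndf r).flatten.length = r.p.length + r.p'.length := by
      simp [bndf]
    omega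

lemma bnd_sys {G : SimpleGraph V} {K A B : Finset V} {Q : List (List V)} {D D' : List (Rc V)}
    (hQ : Sys G K A B Q) (hD : (D.flatMap bndf).Nodup) (hs : D'.Sublist D)
    (hm : ∀ r ∈ D, r.p ∈ Q ∧ r.p' ∈ Q) : Sys G K A B (D'.flatMap bndf) := by
  refine hQ.of_subset (hD.sublist (hs.flatMap _)) ?_
  intro q hq
  rw [List.mem_flatMap] at hq
  obtain ⟨r, hr, hq⟩ := hq
  have := hm r (hs.subset hr)
  simp [bndf] at hq
  rcases hq with rfl | rfl
  · exact this.1
  · exact this.2

theorem st_BND (h1 : ST_OPP) (h2 : ST_FEW) (h3 : ST_NEAR) (h4 : ST_NEARR) (h5 : ST_MID)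
    (h6 : ST_PAIR) : ST_BND := by
  intro V _ _ G k e K q N w W t hc s lam Lam E1 E2 Y m hp P hP Q hQ hlen
  classical
  obtain ⟨o1, o2, o3, o4, o5⟩ := h1 V G k e K q N w W t hc s lam Lam E1 E2 Y m hp P hP
  have hs1 := hp.s1
  have hLam : 1 ≤ Lam := by
    have := hp.hL
    omega
  have hbig : ∀ l ∈ P, 2 * Lam + E2 + lam ≤ l.length := by
    intro l hl
    have h7 := o5 l hl
    have h8 := hp.he
    have h9 : 2 * Lam ≤ (2 * s + 1) * Lam := Nat.mul_le_mul_right _ (by omega)
    omega
  obtain ⟨D, d1, d2, d3, d4⟩ := h6 V G q W t Lam P Q hc.hub.inj hP.1.1 hLam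
    (fun l hl => by have := hbig l hl; omega) hQ
  have d4' : (D.flatMap bndf).Nodup := d4
  -- the long ears
  have hlong : (D.filter (fun r => decide (lam ≤ r.F.length))).length < 6 * m + 5 := by
    have h7 := h2 V G k e K q N w W t hc s lam Lam E1 E2 Y m hp
      ((D.filter (fun r => decide (lam ≤ r.F.length))).map Rc.F)
      (d3.of_subset (d3.nodup.sublist (List.filter_sublist.map _)) (by
        intro l hl
        obtain ⟨r, hr, rfl⟩ := List.mem_map.1 hl
        exact List.mem_map.2 ⟨r, (List.mem_filter.1 hr).1, rfl⟩)) (by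
        intro l hl
        obtain ⟨r, hr, rfl⟩ := List.mem_map.1 hl
        simpa using (List.mem_filter.1 hr).2)
    rwa [List.length_map] at h7
  obtain ⟨D2, hD2⟩ : ∃ D2, D2 = D.filter (fun r => !decide (lam ≤ r.F.length)) := ⟨_, rfl⟩
  have hsplit := List.length_eq_length_filter_add (l := D)
    (fun r : Rc V => decide (lam ≤ r.F.length))
  rw [← hD2] at hsplit
  have hsub2 : D2.Sublist D := by rw [hD2]; exact List.filter_sublist
  have hcheap : ∀ r ∈ D2, r.F.length < lam := by
    intro r hr
    rw [hD2, List.mem_filter] at hr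
    simpa using hr.2
  -- cheap pairs have small gaps
  have hgap : ∀ r ∈ D2, r.j < r.i + lam := by
    intro r hr
    have h7 := hcheap r hr
    obtain ⟨⟨hrl, hij, ⟨x, hx, hxp⟩, y, hy, hyp⟩, _, _, hi, hj⟩ := d2 r (hsub2.subset hr)
    have h8 : r.F.length = r.p.length + (r.j - r.i - 1) + r.p'.length := by
      simp only [Rc.F, List.length_append, List.length_reverse, List.length_take,
        List.length_drop]
      omega
    have h9 : 1 ≤ r.p.length := by
      cases hrp : r.p with
      | nil => rw [hrp] at hxp; simp at hxp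
      | cons a l => simp
    have h10 : 1 ≤ r.p'.length := by
      cases hrp : r.p' with
      | nil => rw [hrp] at hyp; simp at hyp
      | cons a l => simp
    omega
  -- near left
  have hnl : ∀ l ∈ P, (D2.filter (fun r => decide (r.l = l ∧ r.j < E2))).length ≤ P.length - 1 := by
    intro l hl
    by_contra hcon
    push Not at hcon
    obtain ⟨D3, hD3⟩ : ∃ D3, D3 = (D2.filter (fun r => decide (r.l = l ∧ r.j < E2))).take
        P.length := ⟨_, rfl⟩
    have hlen3 : D3.length = P.length := by
      rw [hD3, List.length_take]; omega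
    have hs3 : D3.Sublist D2 := by
      rw [hD3]; exact (List.take_sublist _ _).trans List.filter_sublist
    refine h3 V G k e K q N w W t hc s lam Lam E1 E2 Y m hp P hP l hl (D3.flatMap bndf)
      (bnd_sys hQ d4' (hs3.trans hsub2) (fun r hr => ⟨(d2 r hr).2.1, (d2 r hr).2.2.1⟩)) ?_ ?_ ?_
    · rw [bnd_len, hlen3]
    · intro b hb
      rw [List.mem_flatMap] at hb
      obtain ⟨r, hr, hb⟩ := hb
      have hr' : r ∈ D2.filter (fun r => decide (r.l = l ∧ r.j < E2)) := by
        rw [hD3] at hr; exact List.mem_of_mem_take hr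
      rw [List.mem_filter] at hr'
      obtain ⟨hr2, hr3⟩ := hr'
      simp at hr3
      obtain ⟨⟨hrl, hij, ⟨x, hx, hxp⟩, y, hy, hyp⟩, _, _, hi, hj⟩ := d2 r (hsub2.subset hr2)
      simp [bndf] at hb
      rcases hb with rfl | rfl
      · exact ⟨r.i, x, hi, by omega, hr3.1 ▸ hx, hxp⟩
      · exact ⟨r.j, y, by omega, hr3.2, hr3.1 ▸ hy, hyp⟩
    · rw [← hlen3]
      exact bnd_tot D3 lam (fun r hr => hcheap r (hs3.subset hr))
  -- near right
  have hnr : ∀ l ∈ P, (D2.filter (fun r => decide (r.l = l ∧ r.l.length - 1 - r.i < E2))).length ≤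
      P.length - 1 := by
    intro l hl
    by_contra hcon
    push Not at hcon
    obtain ⟨D3, hD3⟩ : ∃ D3, D3 = (D2.filter (fun r => decide (r.l = l ∧
        r.l.length - 1 - r.i < E2))).take P.length := ⟨_, rfl⟩
    have hlen3 : D3.length = P.length := by
      rw [hD3, List.length_take]; omega
    have hs3 : D3.Sublist D2 := by
      rw [hD3]; exact (List.take_sublist _ _).trans List.filter_sublist
    refine h4 V G k e K q N w W t hc s lam Lam E1 E2 Y m hp P hP l hl (D3.flatMap bndf)
      (bnd_sys hQ d4' (hs3.trans hsub2) (fun r hr => ⟨(d2 r hr).2.1, (d2 r hr).2.2.1⟩)) ?_ ?_ ?_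
    · rw [bnd_len, hlen3]
    · intro b hb
      rw [List.mem_flatMap] at hb
      obtain ⟨r, hr, hb⟩ := hb
      have hr' : r ∈ D2.filter (fun r => decide (r.l = l ∧ r.l.length - 1 - r.i < E2)) := by
        rw [hD3] at hr; exact List.mem_of_mem_take hr
      rw [List.mem_filter] at hr'
      obtain ⟨hr2, hr3⟩ := hr'
      simp only [decide_eq_true_eq] at hr3
      obtain ⟨hr3, hr4⟩ := hr3
      obtain ⟨⟨hrl, hij, ⟨x, hx, hxp⟩, y, hy, hyp⟩, _, _, hi, hj⟩ := d2 r (hsub2.subset hr2)
      rw [hr3] at hx hy hj hr4
      have key : ∀ n x, l[n]? = some x → n < l.length → l.reverse[l.length - 1 - n]? = some x := by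
        intro n x h hn
        rw [List.getElem?_reverse (by omega)]
        rw [show l.length - 1 - (l.length - 1 - n) = n by omega]
        exact h
      simp [bndf] at hb
      rcases hb with rfl | rfl
      · exact ⟨l.length - 1 - r.i, x, by omega, hr4, key _ _ hx (by omega), hxp⟩
      · exact ⟨l.length - 1 - r.j, y, by omega, by omega, key _ _ hy (by omega), hyp⟩
    · rw [← hlen3]
      exact bnd_tot D3 lam (fun r hr => hcheap r (hs3.subset hr))
  -- in the middle
  have hmid : (D2.filter (fun r => decide (E2 ≤ r.j ∧ E2 ≤ r.l.length - 1 - r.i))).length ≤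
      2 * P.length := by
    by_contra hcon
    push Not at hcon
    obtain ⟨D3, hD3⟩ : ∃ D3, D3 = (D2.filter (fun r => decide (E2 ≤ r.j ∧
        E2 ≤ r.l.length - 1 - r.i))).take (2 * P.length + 1) := ⟨_, rfl⟩
    have hlen3 : D3.length = 2 * P.length + 1 := by
      rw [hD3, List.length_take]; omega
    have hs3 : D3.Sublist D2 := by
      rw [hD3]; exact (List.take_sublist _ _).trans List.filter_sublist
    refine h5 V G k e K q N w W t hc s lam Lam E1 E2 Y m hp P hP D3 hlen3 ?_
      (bnd_sys hQ d4' (hs3.trans hsub2) (fun r hr => ⟨(d2 r hr).2.1, (d2 r hr).2.2.1⟩)) ?_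
    · intro r hr
      have hr' : r ∈ D2.filter (fun r => decide (E2 ≤ r.j ∧ E2 ≤ r.l.length - 1 - r.i)) := by
        rw [hD3] at hr; exact List.mem_of_mem_take hr
      rw [List.mem_filter] at hr'
      obtain ⟨hr2, hr3⟩ := hr'
      simp only [decide_eq_true_eq] at hr3
      have h7 := hgap r hr2
      obtain ⟨hok, _, _, hi, hj⟩ := d2 r (hsub2.subset hr2)
      exact ⟨hok, h7, by omega, by omega⟩
    · rw [← hlen3]
      exact bnd_tot D3 lam (fun r hr => hcheap r (hs3.subset hr))
  -- counting
  have hsplit2 := List.length_eq_length_filter_add (l := D2)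
    (fun r : Rc V => decide (E2 ≤ r.j ∧ E2 ≤ r.l.length - 1 - r.i))
  have hcount := bnd_count (fun (l : List V) (r : Rc V) =>
      decide (r.l = l ∧ r.j < E2) || decide (r.l = l ∧ r.l.length - 1 - r.i < E2))
    (2 * (P.length - 1)) P
    (D2.filter (fun r => !decide (E2 ≤ r.j ∧ E2 ≤ r.l.length - 1 - r.i))) (by
      intro r hr
      rw [List.mem_filter] at hr
      obtain ⟨hr1, hr2⟩ := hr
      simp only [Bool.not_eq_true', decide_eq_false_iff_not] at hr2
      obtain ⟨⟨hrl, _⟩, _⟩ := d2 r (hsub2.subset hr1)
      refine ⟨r.l, hrl, ?_⟩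
      simp only [Bool.or_eq_true, decide_eq_true_eq, true_and]
      omega) (by
      intro l hl
      have h7 := hnl l hl
      have h8 := hnr l hl
      have h9 : ∀ (f g : Rc V → Bool) (L : List (Rc V)),
          (L.filter (fun r => f r || g r)).length ≤ (L.filter f).length + (L.filter g).length := by
        intro f g L
        induction L with
        | nil => simp
        | cons r L ih =>
          simp only [List.filter_cons]
          cases hf : f r <;> cases hg : g r <;> simp <;> omega
      have h10 := h9 (fun r => decide (r.l = l ∧ r.j < E2))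
        (fun r => decide (r.l = l ∧ r.l.length - 1 - r.i < E2)) D2
      have h11 := ((List.filter_sublist (l := D2)
        (p := fun r => !decide (E2 ≤ r.j ∧ E2 ≤ r.l.length - 1 - r.i))).filter (fun r : Rc V =>
        decide (r.l = l ∧ r.j < E2) || decide (r.l = l ∧ r.l.length - 1 - r.i < E2))).length_le
      omega)
  have hN := hp.hN
  have hsq : P.length * (2 * (P.length - 1)) + 2 * P.length ≤ 2 * s ^ 2 := by
    obtain ⟨x, hx⟩ := Nat.exists_eq_add_of_le o1
    rw [hx] at o2 ⊢
    rw [Nat.add_sub_cancel_left]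
    calc (1 + x) * (2 * x) + 2 * (1 + x) = 2 * (1 + x) ^ 2 := by ring
      _ ≤ 2 * s ^ 2 := Nat.mul_le_mul_left _ (Nat.pow_le_pow_left o2 2)
  omega

end Pool.Agent.Helper71.BM
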