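import Pool.Agent.Helper71.BM.Basic

/-!
# Module EX: exchange for linkages
-/

set_option autoImplicit false

namespace Pool.Agent.Helper71.BM

open Finset ErdPos

variable {V : Type}

lemma ex_avoid [DecidableEq V] {P : List (List V)} (hP : P.flatten.Nodup) {S : Finset V}
    (hS : S.card < P.length) : ∃ l ∈ P, ∀ v ∈ l, v ∉ S := by
  classical
  by_contra hcon
  push Not at hcon
  have hne : ∀ l ∈ P, l ≠ [] := by
    rintro l hl rfl
    obtain ⟨v, hv, _⟩ := hcon _ hl
    simp at hv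
  have hnd := nodup_of_flatten hP hne
  have hne0 : Nonempty V := by
    cases P with
    | nil => simp at hS
    | cons l0 P0 =>
      obtain ⟨v0, -, -⟩ := hcon l0 (by simp)
      exact ⟨v0⟩
  choose! f hf using hcon
  have hinj : Set.InjOn f (P.toFinset : Set (List V)) := by
    intro l hl l' hl' he
    have hl1 : l ∈ P := by simpa using hl
    have hl2 : l' ∈ P := by simpa using hl'
    exact eq_of_mem_flatten hP hl1 hl2 (hf l hl1).1 (he ▸ (hf l' hl2).1)
  have h1 := card_le_card_of_injOn f (s := P.toFinset) (t := S)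
    (fun l hl => (hf l (by simpa using hl)).2) hinj
  rw [List.toFinset_card_of_nodup hnd] at h1
  omega

/-- the set of the first vertices -/
def exH [Fintype V] [DecidableEq V] (P : List (List V)) : Finset V :=
  univ.filter (fun v => some v ∈ P.map List.head?)

lemma ex_mem [Fintype V] [DecidableEq V] {P : List (List V)} {v : V} :
    v ∈ exH P ↔ ∃ l ∈ P, l.head? = some v := by
  simp [exH]

lemma ex_nodup_heads {P : List (List V)} (hP : P.flatten.Nodup) (hne : ∀ l ∈ P, l ≠ []) :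
    (P.map List.head?).Nodup := by
  have hnd := nodup_of_flatten hP hne
  refine List.Nodup.map_on ?_ hnd
  intro l hl l' hl' he
  cases l with
  | nil => exact absurd rfl (hne _ hl)
  | cons a l =>
    have h1 : l'.head? = some a := he.symm
    exact eq_of_mem_flatten hP hl hl' (v := a) (by simp) (List.mem_of_mem_head? (by rw [h1]; rfl))

lemma ex_card [Fintype V] [DecidableEq V] {P : List (List V)} (hP : P.flatten.Nodup)
    (hne : ∀ l ∈ P, l ≠ []) : (exH P).card = P.length := by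
  have h1 : (exH P).image some = (P.map List.head?).toFinset := by
    ext o
    simp only [mem_image, ex_mem, List.mem_toFinset, List.mem_map]
    constructor
    · rintro ⟨v, ⟨l, hl, hv⟩, rfl⟩
      exact ⟨l, hl, hv⟩
    · rintro ⟨l, hl, rfl⟩
      cases l with
      | nil => exact absurd rfl (hne _ hl)
      | cons a l => exact ⟨a, ⟨a :: l, hl, rfl⟩, rfl⟩
  rw [← card_image_of_injective (exH P) (Option.some_injective V), h1,
    List.toFinset_card_of_nodup (ex_nodup_heads hP hne), List.length_map]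

/-- the auxiliary graph -/
def exG (G : SimpleGraph V) (X : Finset V) (r : ℕ) : SimpleGraph (V ⊕ Fin r) where
  Adj x y := (∃ u v, x = .inl u ∧ y = .inl v ∧ G.Adj u v) ∨
    (∃ u i, x = .inl u ∧ y = .inr i ∧ u ∈ X) ∨ (∃ u i, x = .inr i ∧ y = .inl u ∧ u ∈ X)
  symm := by
    constructor
    rintro x y (⟨u, v, rfl, rfl, h⟩ | ⟨u, i, rfl, rfl, h⟩ | ⟨u, i, rfl, rfl, h⟩)
    · exact Or.inl ⟨v, u, rfl, rfl, h.symm⟩
    · exact Or.inr (Or.inr ⟨u, i, rfl, rfl, h⟩)
    · exact Or.inr (Or.inl ⟨u, i, rfl, rfl, h⟩)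
  loopless := by
    constructor
    rintro x (⟨u, v, h1, h2, h⟩ | ⟨u, i, h1, h2, h⟩ | ⟨u, i, h1, h2, h⟩)
    · rw [h1] at h2
      simp at h2
      subst h2
      exact G.loopless.irrefl _ h
    · rw [h1] at h2; simp at h2
    · rw [h1] at h2; simp at h2

lemma exG_inl {G : SimpleGraph V} {X : Finset V} {r : ℕ} {u v : V} :
    (exG G X r).Adj (.inl u) (.inl v) ↔ G.Adj u v := by
  simp [exG]

lemma exG_inr {G : SimpleGraph V} {X : Finset V} {r : ℕ} {u : V} {i : Fin r} :
    (exG G X r).Adj (.inr i) (.inl u) ↔ u ∈ X := by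
  simp [exG]

lemma ex_map_inl {G : SimpleGraph V} {X : Finset V} {r : ℕ} {a b : V} {l : List V} :
    PL (exG G X r) (.inl a) (.inl b) (l.map Sum.inl) ↔ PL G a b l := by
  unfold PL
  rw [List.head?_map, List.getLast?_map, List.nodup_map_iff Sum.inl_injective, List.isChain_map]
  simp only [exG_inl]
  constructor
  · rintro ⟨h1, h2, h3, h4⟩
    refine ⟨?_, ?_, h3, h4⟩
    · cases h : l.head? with
      | none => rw [h] at h1; simp at h1
      | some x => rw [h] at h1; simp at h1; rw [h1]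
    · cases h : l.getLast? with
      | none => rw [h] at h2; simp at h2
      | some x => rw [h] at h2; simp at h2; rw [h2]
  · rintro ⟨h1, h2, h3, h4⟩
    exact ⟨by rw [h1]; rfl, by rw [h2]; rfl, h3, h4⟩

lemma ex_all_inl {r : ℕ} : ∀ {l : List (V ⊕ Fin r)}, (∀ x ∈ l, ∃ v, x = .inl v) →
    l = (l.filterMap Sum.getLeft?).map Sum.inl := by
  intro l
  induction l with
  | nil => intro _; rfl
  | cons x l ih =>
    intro h
    obtain ⟨v, rfl⟩ := h x (by simp)
    have h1 := ih (fun x hx => h x (by simp [hx]))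
    simp only [List.filterMap_cons, Sum.getLeft?_inl, List.map_cons]
    rw [← h1]

/-- one path of the auxiliary graph -/
lemma ex_path [DecidableEq V] {G : SimpleGraph V} {X1 X K T : Finset V} {r : ℕ}
    {K' A' T' : Finset (V ⊕ Fin r)} (hK : ∀ v, Sum.inl v ∈ K' → v ∈ K)
    (hA1 : ∀ v, Sum.inl v ∈ A' ↔ v ∈ X1) (hA2 : ∀ i, Sum.inr i ∈ A')
    (hT1 : ∀ v, Sum.inl v ∈ T' ↔ v ∈ T) (hT2 : ∀ i, Sum.inr i ∉ T')
    {ρ : List (V ⊕ Fin r)} {a' b' : V ⊕ Fin r} (ha' : a' ∈ A') (hb' : b' ∈ T')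
    (hρ : PL (exG G X r) a' b' ρ) (hρK : ∀ v ∈ ρ, v ∈ K') (h1 : ∀ v ∈ ρ, v ∈ A' → v = a')
    (h2 : ∀ v ∈ ρ, v ∈ T' → v = b') :
    ∃ a, ∃ b ∈ T, PL G a b (ρ.filterMap Sum.getLeft?) ∧
      (∀ v ∈ ρ.filterMap Sum.getLeft?, v ∈ K ∧ (v ∈ T → v = b)) ∧
      ((a' = .inl a ∧ a ∈ X1) ∨ a ∈ X) := by
  obtain ⟨b, hb⟩ : ∃ b, b' = .inl b := by
    cases b' with
    | inl b => exact ⟨b, rfl⟩
    | inr i => exact absurd hb' (hT2 i)
  subst hb
  have hbT : b ∈ T := (hT1 b).1 hb'
  have hmem : ∀ v, v ∈ ρ.filterMap Sum.getLeft? ↔ Sum.inl v ∈ ρ := by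
    intro v
    simp only [List.mem_filterMap]
    constructor
    · rintro ⟨x, hx, hxv⟩
      cases x with
      | inl u => simp at hxv; rw [← hxv]; exact hx
      | inr i => simp at hxv
    · intro h
      exact ⟨_, h, rfl⟩
  have hprop : ∀ v ∈ ρ.filterMap Sum.getLeft?, v ∈ K ∧ (v ∈ T → v = b) := by
    intro v hv
    rw [hmem] at hv
    refine ⟨hK v (hρK _ hv), fun hvT => ?_⟩
    have := h2 _ hv ((hT1 v).2 hvT)
    simpa using this
  cases a' with
  | inl a =>
    have hall : ∀ x ∈ ρ, ∃ v, x = .inl v := by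
      intro x hx
      cases x with
      | inl v => exact ⟨v, rfl⟩
      | inr i =>
        have := h1 _ hx (hA2 i)
        simp at this
    have he := ex_all_inl hall
    refine ⟨a, b, hbT, ?_, hprop, Or.inl ⟨rfl, (hA1 a).1 ha'⟩⟩
    rw [he] at hρ
    exact ex_map_inl.1 hρ
  | inr i =>
    obtain ⟨ρ', rfl⟩ := hρ.eq_both (by simp : (Sum.inr i : V ⊕ Fin r) ≠ .inl b)
    have hall : ∀ x ∈ ρ' ++ [Sum.inl b], ∃ v, x = .inl v := by
      intro x hx
      cases x with
      | inl v => exact ⟨v, rfl⟩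
      | inr j =>
        have h3 := h1 _ (by simp at hx ⊢; right; exact hx) (hA2 j)
        have hnd := hρ.2.2.1
        rw [List.cons_append, List.nodup_cons] at hnd
        rw [h3] at hx
        exact absurd hx hnd.1
    have he := ex_all_inl hall
    have he2 : (Sum.inr i :: ρ' ++ [Sum.inl b]).filterMap Sum.getLeft? =
        (ρ' ++ [Sum.inl b]).filterMap Sum.getLeft? := by
      simp
    rw [he2] at hprop ⊢
    obtain ⟨l, hl⟩ : ∃ l, l = (ρ' ++ [Sum.inl b]).filterMap Sum.getLeft? := ⟨_, rfl⟩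
    rw [← hl] at hprop he ⊢
    have hch := hρ.2.2.2
    have hnd := hρ.2.2.1
    rw [List.cons_append] at hch hnd
    rw [he] at hch hnd
    cases l with
    | nil => simp at he
    | cons a l =>
      rw [List.map_cons, List.isChain_cons_cons] at hch
      have haX := exG_inr.1 hch.1
      refine ⟨a, b, hbT, ?_, hprop, Or.inr haX⟩
      rw [← ex_map_inl (X := X) (r := r)]
      refine ⟨by simp, ?_, (List.nodup_cons.1 hnd).2, hch.2⟩
      rw [← he]
      simp

theorem st_EX (h1 : ST_MLP) : ST_EX := by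
  intro V _ _ G K T P Q hP hQ hlen
  classical
  have hP0 := hP.ne_nil
  have hQ0 := hQ.ne_nil
  obtain ⟨X, hX⟩ : ∃ X, X = exH Q \ exH P := ⟨_, rfl⟩
  obtain ⟨r, hr⟩ : ∃ r, r = Q.length - P.length := ⟨_, rfl⟩
  obtain ⟨K', hK'⟩ : ∃ K' : Finset (V ⊕ Fin r), K' = K.image Sum.inl ∪ univ.image Sum.inr :=
    ⟨_, rfl⟩
  obtain ⟨A', hA'⟩ : ∃ A' : Finset (V ⊕ Fin r), A' = (exH P).image Sum.inl ∪
    univ.image Sum.inr := ⟨_, rfl⟩
  obtain ⟨T', hT'⟩ : ∃ T' : Finset (V ⊕ Fin r), T' = T.image Sum.inl := ⟨_, rfl⟩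
  have mK1 : ∀ v, Sum.inl v ∈ K' ↔ v ∈ K := by intro v; simp [hK']
  have mK2 : ∀ i, Sum.inr i ∈ K' := by intro v; simp [hK']
  have mA1 : ∀ v, Sum.inl v ∈ A' ↔ v ∈ exH P := by intro v; simp [hA']
  have mA2 : ∀ i, Sum.inr i ∈ A' := by intro v; simp [hA']
  have mT1 : ∀ v, Sum.inl v ∈ T' ↔ v ∈ T := by intro v; simp [hT']
  have mT2 : ∀ i, Sum.inr i ∉ T' := by intro v; simp [hT']
  have hcardA : A'.card ≤ Q.length := by
    rw [hA']
    refine (card_union_le _ _).trans ?_
    have h2 : ((exH P).image (Sum.inl : V → V ⊕ Fin r)).card ≤ P.length := by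
      rw [← ex_card hP.1 hP0]; exact card_image_le
    have h3 : ((univ : Finset (Fin r)).image (Sum.inr : Fin r → V ⊕ Fin r)).card ≤ r := by
      refine card_image_le.trans ?_
      simp
    omega
  -- no small separator
  have hsep : NoSep (exG G X r) K' A' T' Q.length := by
    intro S hS
    obtain ⟨S1, hS1⟩ : ∃ S1 : Finset V, S1 = univ.filter (fun v => Sum.inl v ∈ S) := ⟨_, rfl⟩
    have mS1 : ∀ v, v ∈ S1 ↔ Sum.inl v ∈ S := by intro v; simp [hS1]
    have hS1c : S1.card ≤ S.card := by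
      rw [← card_image_of_injective S1 (Sum.inl_injective (β := Fin r))]
      apply card_le_card
      intro x hx
      obtain ⟨v, hv, rfl⟩ := mem_image.1 hx
      exact (mS1 v).1 hv
    by_cases hall : ∀ i, Sum.inr i ∈ S
    · have h2 : S1.card + r ≤ S.card := by
        have h3 : (S1.image (Sum.inl : V → V ⊕ Fin r) ∪
            (univ : Finset (Fin r)).image Sum.inr).card = S1.card + r := by
          rw [card_union_of_disjoint, card_image_of_injective _ Sum.inl_injective,
            card_image_of_injective _ Sum.inr_injective]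
          · simp
          · rw [Finset.disjoint_left]
            intro x hx hx'
            obtain ⟨v, _, rfl⟩ := mem_image.1 hx
            simp at hx'
        rw [← h3]
        apply card_le_card
        intro x hx
        rcases mem_union.1 hx with hx | hx
        · obtain ⟨v, hv, rfl⟩ := mem_image.1 hx
          exact (mS1 v).1 hv
        · obtain ⟨i, _, rfl⟩ := mem_image.1 hx
          exact hall i
      obtain ⟨l, hl, hlS⟩ := ex_avoid hP.1 (S := S1) (by omega)
      obtain ⟨hlK, a, b, hb, hab, hlT⟩ := hP.2 l hl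
      refine ⟨.inl a, (mA1 a).2 (ex_mem.2 ⟨l, hl, hab.1⟩), .inl b, (mT1 b).2 hb,
        l.map Sum.inl, ex_map_inl.2 hab, ?_⟩
      intro x hx
      obtain ⟨v, hv, rfl⟩ := List.mem_map.1 hx
      exact ⟨(mK1 v).2 (hlK v hv), fun h => hlS v hv ((mS1 v).2 h)⟩
    · push Not at hall
      obtain ⟨i, hi⟩ := hall
      obtain ⟨l, hl, hlS⟩ := ex_avoid hQ.1 (S := S1) (by omega)
      obtain ⟨hlK, a, b, hb, hab, hlT⟩ := hQ.2 l hl
      have hQh : a ∈ exH Q := ex_mem.2 ⟨l, hl, hab.1⟩
      have hmem : ∀ x ∈ l.map (Sum.inl : V → V ⊕ Fin r), x ∈ K' ∧ x ∉ S := by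
        intro x hx
        obtain ⟨v, hv, rfl⟩ := List.mem_map.1 hx
        exact ⟨(mK1 v).2 (hlK v hv), fun h => hlS v hv ((mS1 v).2 h)⟩
      by_cases hPh : a ∈ exH P
      · exact ⟨.inl a, (mA1 a).2 hPh, .inl b, (mT1 b).2 hb, l.map Sum.inl, ex_map_inl.2 hab,
          hmem⟩
      · refine ⟨.inr i, mA2 i, .inl b, (mT1 b).2 hb, [.inr i] ++ l.map Sum.inl, ?_, ?_⟩
        · refine (PL.single _).append (ex_map_inl.2 hab) ?_ ?_
          · exact exG_inr.2 (by rw [hX]; exact mem_sdiff.2 ⟨hQh, hPh⟩)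
          · intro x hx hx'
            simp at hx
            rw [hx] at hx'
            simp at hx'
        · intro x hx
          rcases List.mem_append.1 hx with hx | hx
          · simp at hx
            rw [hx]
            exact ⟨mK2 i, hi⟩
          · exact hmem x hx
  obtain ⟨R', hR', hR'len⟩ := h1 _ (exG G X r) K' A' T' Q.length hsep
  have hR'0 := hR'.ne_nil
  refine ⟨R'.map (fun ρ => ρ.filterMap Sum.getLeft?), ⟨?_, ?_⟩, ?_, ?_, ?_⟩
  · have he : (R'.map (fun ρ => ρ.filterMap Sum.getLeft?)).flatten =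
        R'.flatten.filterMap Sum.getLeft? := by
      rw [List.filterMap_flatten]
    rw [he]
    refine List.Nodup.filterMap ?_ hR'.1
    intro x y v hx hy
    cases x with
    | inl x =>
      cases y with
      | inl y =>
        simp at hx hy
        rw [hx, hy]
      | inr y => simp at hy
    | inr x => simp at hx
  · intro l hl
    obtain ⟨ρ, hρ, rfl⟩ := List.mem_map.1 hl
    obtain ⟨g1, a', ha', b', hb', g2, g3, g4⟩ := hR'.2 ρ hρ
    obtain ⟨a, b, hb, hab, hv, _⟩ := ex_path (X1 := exH P) (K := K) (T := T)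
      (fun v => (mK1 v).1) mA1 mA2 mT1 mT2 ha' hb' g2 g1 g3 g4
    exact ⟨fun v hv' => (hv v hv').1, a, b, hb, hab, fun v hv' => (hv v hv').2⟩
  · simp [hR'len]
  · intro l hl
    obtain ⟨x, hx⟩ : ∃ x, l.head? = some x := by
      cases l with
      | nil => exact absurd rfl (hP0 _ hl)
      | cons x l => exact ⟨x, rfl⟩
    have hxP : x ∈ exH P := ex_mem.2 ⟨l, hl, hx⟩
    -- all sources occur
    have hsub : exH R' ⊆ A' := by
      intro y hy
      obtain ⟨ρ, hρ, hy⟩ := ex_mem.1 hy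
      obtain ⟨_, a', ha', b', _, g2, _⟩ := hR'.2 ρ hρ
      have := g2.1
      rw [hy] at this
      simp at this
      rw [this]
      exact ha'
    have hcard : (exH R').card = Q.length := by rw [ex_card hR'.1 hR'0, hR'len]
    have heq : exH R' = A' := eq_of_subset_of_card_le hsub (by rw [hcard]; exact hcardA)
    have hxA : Sum.inl x ∈ exH R' := by rw [heq]; exact (mA1 x).2 hxP
    obtain ⟨ρ, hρ, hy⟩ := ex_mem.1 hxA
    refine ⟨_, List.mem_map.2 ⟨ρ, hρ, rfl⟩, ?_⟩
    rw [hx]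
    cases ρ with
    | nil => exact absurd rfl (hR'0 _ hρ)
    | cons y ρ =>
      simp at hy
      subst hy
      simp
  · intro l hl
    obtain ⟨ρ, hρ, rfl⟩ := List.mem_map.1 hl
    obtain ⟨g1, a', ha', b', hb', g2, g3, g4⟩ := hR'.2 ρ hρ
    obtain ⟨a, b, hb, hab, hv, hor⟩ := ex_path (X1 := exH P) (K := K) (T := T)
      (fun v => (mK1 v).1) mA1 mA2 mT1 mT2 ha' hb' g2 g1 g3 g4
    rw [hab.1]
    rcases hor with ⟨_, h⟩ | h
    · obtain ⟨l', hl', he⟩ := ex_mem.1 h
      exact ⟨l', List.mem_append_left _ hl', he.symm⟩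
    · rw [hX] at h
      obtain ⟨l', hl', he⟩ := ex_mem.1 (mem_sdiff.1 h).1
      exact ⟨l', List.mem_append_right _ hl', he.symm⟩

end Pool.Agent.Helper71.BM
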