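import Pool.Agent.Helper71.BM.Basic

/-!
# Modules LNG, FEW, HAVC, CTX
-/

set_option autoImplicit false

namespace Pool.Agent.Helper71.BM

open Finset ErdPos

theorem st_LNG (h1 : ST_CLO) : ST_LNG := by
  intro V _ _ G k e K q N w W t hc hk hwe P hP hkP
  have hne : P ≠ [] := by
    rintro rfl
    simp at hkP
    omega
  obtain ⟨z, hz, hz1, hz2⟩ := h1 V G (FL G k) q N W t hc.hub P hP hne (by omega)
  have hsub : P.flatten.toFinset ⊆ z.toFinset := by
    intro v hv
    simp only [List.mem_toFinset] at hv ⊢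
    exact hz1 v hv
  have h2 := card_le_card hsub
  rw [List.toFinset_card_of_nodup hP.1, hz.card] at h2
  have h3 := hc.gap _ (hz.FL (by omega : k ≤ z.length))
  have h4 : z.toFinset ⊆ P.flatten.toFinset ∪ W := by
    intro v hv
    rw [List.mem_toFinset] at hv
    rw [mem_union, List.mem_toFinset]
    exact hz2 v hv
  have h5 := (card_le_card h4).trans (card_union_le _ _)
  rw [List.toFinset_card_of_nodup hP.1] at h5
  have h6 := hc.wc
  omega

theorem st_FEW (h1 : ST_CLO2) : ST_FEW := by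
  intro V _ _ G k e K q N w W t hc s lam Lam E1 E2 Y m hp P hP hl
  by_contra hcon
  push Not at hcon
  have h3 : 3 ≤ m * lam := hp.k3.trans hp.hm
  obtain ⟨z, z', hz, hz', h4, h5, h6⟩ := h1 V G (FL G k) q N W t hc.hub P m lam hP hp.m1 hcon hl h3
  obtain ⟨v, hv, hv'⟩ := nu_lists hc.nu hz hz' (hp.hm.trans h4) (hp.hm.trans h5)
  exact h6 hv hv'

theorem st_HAVC : ST_HAVC := by
  intro V _ _ G k K hnu hhit Z hZ
  obtain ⟨M, hM, hMZ⟩ := hhit Z hZ
  obtain ⟨x, hx⟩ := hM.conn.1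
  have hxZ : x ∈ univ \ Z := mem_sdiff.2 ⟨mem_univ _, Finset.disjoint_left.1 hMZ hx⟩
  obtain ⟨C, hC, hxC⟩ := exists_comp (G := G) hxZ
  have hsub : ∀ M', FL G k M' → M' ⊆ univ \ Z → ∃ v ∈ M', v ∈ M := by
    intro M' hM' _
    obtain ⟨v, hv⟩ := hnu M' M hM' hM
    rw [mem_inter] at hv
    exact ⟨v, hv.1, hv.2⟩
  have hMC : M ⊆ C := hC.subset_of_mem hM.conn
    (fun v hv => mem_sdiff.2 ⟨mem_univ _, Finset.disjoint_left.1 hMZ hv⟩) hx hxC
  refine ⟨C, hC.subset, hC.conn, ⟨M, hM, hMC⟩, fun D hD hDc ⟨M', hM', hs⟩ => ?_⟩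
  obtain ⟨v, hv, hvM⟩ := hsub M' hM' (hs.trans hD)
  exact hC.subset_of_mem hDc hD (hs hv) (hMC hvM)

theorem st_CTX : ST_CTX := by
  intro V _ _ G F m C A H hH hM S hS
  have hN : (Nb G univ C).card ≤ 2 * m := by rw [hM.card]; omega
  have hCb : bt G F univ (Nb G univ C) = C := (Big.isBt hH hM.big hN).eq_bt
  have hU : (S ∪ Nb G univ C).card ≤ 2 * m := by
    refine (card_union_le _ _).trans ?_
    rw [hM.card]; omega
  have hD := hH.isBt hU
  obtain ⟨D, hDe⟩ : ∃ D, D = bt G F univ (S ∪ Nb G univ C) := ⟨_, rfl⟩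
  rw [← hDe] at hD
  have hDC : D ⊆ C := by
    have h0 : D ⊆ bt G F univ (Nb G univ C) := by
      rw [hDe]
      exact bt_anti hH subset_union_right hU
    rwa [hCb] at h0
  have hDS : D ⊆ bt G F univ S := by
    rw [hDe]
    exact bt_anti hH subset_union_left hU
  have hBS := hH.isBt (Z := S) (by omega)
  have h1 := hM.free D hD.big hDC
  have h2 : Nb G univ D ⊆ S ∪ (Nb G univ C ∩ bt G F univ S) := by
    intro v hv
    have h3 := hD.Nb_subset hv
    obtain ⟨_, hvD, y, hy, hvy⟩ := mem_Nb.1 hv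
    by_cases hvS : v ∈ S
    · exact mem_union_left _ hvS
    · rcases mem_union.1 h3 with h | h
      · exact absurd h hvS
      · exact mem_union_right _ (mem_inter.2 ⟨h, hBS.mem_of_adj (hDS hy) (mem_univ _) hvS hvy.symm⟩)
  have h3 := h1.trans ((card_le_card h2).trans (card_union_le _ _))
  have h4 := card_sdiff_add_card_inter (Nb G univ C) (bt G F univ S)
  rw [hM.card] at h4
  omega

end Pool.Agent.Helper71.BM
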