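import Pool.Agent.Helper71.BM.Fin
import Pool.Agent.Helper11.BM.TWO
import Pool.Agent.Helper13.BM.CLO
import Pool.Agent.Helper13.BM.CLO2
import Pool.Agent.Helper13.BM.CUT
import Pool.Agent.Helper15.BM.NEARR
import Pool.Agent.Helper15.BM.OPP
import Pool.Agent.Helper15.BM.PAIR
import Pool.Agent.Helper24.BM.LAD
import Pool.Agent.Helper26.BM.HEAVY
import Pool.Agent.Helper30.BM.MID
import Pool.Agent.Helper32.BM.CLG
import Pool.Agent.Helper32.BM.EXTL
import Pool.Agent.Helper32.BM.SC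
import Pool.Agent.Helper33.BM.EXS
import Pool.Agent.Helper35.BM.OPT
import Pool.Agent.Helper46.BM.NEAR
import Pool.Agent.Helper50.BM.DICH
import Pool.Agent.Helper51.BM.BLK
import Pool.Agent.Helper58.BM.HUB
import Pool.Agent.Helper58.BM.SPLIT
import Pool.Agent.Helper61.BM.JOIN
import Pool.Agent.Helper61.BM.LCW1
import Pool.Agent.Helper61.BM.LCW2
import Pool.Agent.Helper7.BM.FIN
import Pool.Agent.Helper71.BM.BND
import Pool.Agent.Helper71.BM.EX
import Pool.Agent.Helper71.BM.PR0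
import Pool.Agent.Helper71.BM.Small
import Pool.Agent.Helper72.BM.KWEB
import Pool.Agent.Helper72.BM.MLP
import Pool.Agent.Helper72.BM.PIEC
import Pool.Agent.Helper72.BM.PST
import Pool.Agent.Helper72.BM.SURG
import Pool.Agent.Helper72.BM.WEB
import Pool.Agent.Helper83.BM.WEBX
import Pool.Agent.Helper89.BM.REV
import Pool.Agent.Helper94.BM.LNKS
import Pool.Agent.Helper94.BM.MESH

/-!
# Transversals of pairwise intersecting long cycles: all modules
-/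

set_option autoImplicit false

namespace Pool.Agent.Helper71.BM

open Finset ErdPos

theorem a_BLK : ST_BLK := st_BLK
theorem a_SC : ST_SC := st_SC
theorem a_JOIN : ST_JOIN := st_JOIN
theorem a_CLG : ST_CLG := st_CLG a_JOIN
theorem a_CLO : ST_CLO := st_CLO a_SC a_CLG
theorem a_LNG : ST_LNG := st_LNG a_CLO
theorem a_OPP : ST_OPP := st_OPP a_LNG
theorem a_TWO : ST_TWO := st_TWO a_SC
theorem a_CLO2 : ST_CLO2 := st_CLO2 a_TWO a_CLG
theorem a_FEW : ST_FEW := st_FEW a_CLO2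
theorem a_MLP : ST_MLP := st_MLP
theorem a_EX : ST_EX := st_EX a_MLP
theorem a_SURG : ST_SURG := st_SURG
theorem a_NEAR : ST_NEAR := st_NEAR a_OPP a_EX a_SURG
theorem a_NEARR : ST_NEARR := st_NEARR a_NEAR
theorem a_MID : ST_MID := st_MID a_OPP a_EX a_SURG
theorem a_PR0 : ST_PR0 := st_PR0
theorem a_PAIR : ST_PAIR := st_PAIR a_PR0
theorem a_BND : ST_BND := st_BND a_OPP a_FEW a_NEAR a_NEARR a_MID a_PAIR
theorem a_CTX : ST_CTX := st_CTX
theorem a_CUT : ST_CUT := st_CUT a_MLP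
theorem a_WEBX : ST_WEBX := st_WEBX a_CUT
theorem a_DICH : ST_DICH := st_DICH a_WEBX
theorem a_HAVC : ST_HAVC := st_HAVC
theorem a_EXS : ST_EXS := st_EXS a_MLP a_PR0 a_FEW a_HAVC
theorem a_EXTL : ST_EXTL := st_EXTL a_MLP
theorem a_FIN : ST_FIN := st_FIN a_OPP a_CLO a_HAVC
theorem a_HEAVY : ST_HEAVY := st_HEAVY
theorem a_MESH : ST_MESH := st_MESH a_MLP
theorem a_SPLIT : ST_SPLIT := st_SPLIT
theorem a_KWEB : ST_KWEB := st_KWEB
theorem a_WEB : ST_WEB := st_WEB a_MESH a_SPLIT a_EXTL a_CTX a_DICH a_KWEB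
theorem a_PST : ST_PST := st_PST
theorem a_PIEC : ST_PIEC := st_PIEC
theorem a_LAD : ST_LAD := st_LAD a_PST a_PIEC
theorem a_LNKS : ST_LNKS := st_LNKS
theorem a_REV : ST_REV := st_REV
theorem a_HUB : ST_HUB := st_HUB a_WEB a_LAD a_HEAVY a_LNKS a_REV a_BLK a_HAVC
theorem a_LCW1 : ST_LCW1 := st_LCW1
theorem a_LCW2 : ST_LCW2 := st_LCW2
theorem a_OPT : ST_OPT := st_OPT a_LNG

theorem a_P2 (V : Type) [Fintype V] [DecidableEq V] (G : SimpleGraph V) (k e K q N w : ℕ)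
    (W : Finset V) (t : ℕ → V) (hc : Ctx G k e K q N w W t) (s lam Lam E1 E2 Y m : ℕ)
    (hp : Par k e w K q N s lam Lam E1 E2 Y m) : False :=
  part2 a_MLP a_EXS a_OPT a_BND a_FIN V G k e K q N w W t hc s lam Lam E1 E2 Y m hp

/-- the main theorem -/
theorem all_main (ε θ : ℝ) (hε : 0 < ε) (hθ : 0 < θ) :
    ∃ k0 : ℕ, ∀ k : ℕ, k0 ≤ k → ∀ (V : Type) [Fintype V] (G : SimpleGraph V),
      (∀ (u v : V) (p : G.Walk u u) (q : G.Walk v v),
        p.IsCycle → q.IsCycle → k ≤ p.length → k ≤ q.length →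
          ∃ x : V, x ∈ p.support ∧ x ∈ q.support) →
      ∃ S : Finset V, (S.card : ℝ) ≤ (1 + ε) * k ∧
        (∀ (u : V) (p : G.Walk u u), p.IsCycle → k ≤ p.length → ∃ x ∈ S, x ∈ p.support) ∧
        ((S.card : ℝ) ≤ θ * k ∨
          ∃ (u : V) (p : G.Walk u u), p.IsCycle ∧ k ≤ p.length ∧ ∀ x, x ∈ S ↔ x ∈ p.support) :=
  main_walks a_LCW1 a_LCW2 (main_FL a_HUB a_P2) ε θ hε hθ

end Pool.Agent.Helper71.BM
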