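import Pool.Agent.Helper71.BM.Stmts

/-!
# Transversals of pairwise intersecting long cycles: basic lemmas
-/

set_option autoImplicit false

namespace Pool.Agent.Helper71.BM

open Finset ErdPos

variable {V : Type} {G : SimpleGraph V}

/-! ### paths as lists -/

lemma PL.single (a : V) : PL G a a [a] := by
  refine ⟨rfl, rfl, by simp, by simp⟩

lemma PL.eq_cons {a b : V} {l : List V} (h : PL G a b l) : ∃ l', l = a :: l' := by
  obtain ⟨h1, -⟩ := h
  cases l with
  | nil => simp at h1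
  | cons x l => simp at h1; exact ⟨l, by rw [h1]⟩

lemma PL.eq_concat {a b : V} {l : List V} (h : PL G a b l) : ∃ l', l = l' ++ [b] := by
  obtain ⟨-, h2, -⟩ := h
  rw [List.getLast?_eq_some_iff] at h2
  exact h2

lemma PL.head_mem {a b : V} {l : List V} (h : PL G a b l) : a ∈ l := by
  obtain ⟨l', rfl⟩ := h.eq_cons
  simp

lemma PL.last_mem {a b : V} {l : List V} (h : PL G a b l) : b ∈ l := by
  obtain ⟨l', rfl⟩ := h.eq_concat
  simp

lemma PL.ne_nil {a b : V} {l : List V} (h : PL G a b l) : l ≠ [] := by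
  obtain ⟨l', rfl⟩ := h.eq_cons
  simp

/-- a path with different ends -/
lemma PL.eq_both {a b : V} {l : List V} (h : PL G a b l) (hab : a ≠ b) :
    ∃ l', l = a :: l' ++ [b] := by
  obtain ⟨l1, rfl⟩ := h.eq_cons
  obtain ⟨l2, h2⟩ := h.eq_concat
  cases l2 with
  | nil => simp at h2; exact absurd h2.1 hab
  | cons x l2 =>
    simp at h2
    exact ⟨l2, by rw [h2.2]; simp⟩

lemma PL.reverse {a b : V} {l : List V} (h : PL G a b l) : PL G b a l.reverse := by
  obtain ⟨h1, h2, h3, h4⟩ := h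
  refine ⟨by rw [List.head?_reverse]; exact h2, by rw [List.getLast?_reverse]; exact h1,
    List.nodup_reverse.2 h3, ?_⟩
  rw [List.isChain_reverse]
  exact h4.imp (fun _ _ h => h.symm)

/-- joining two paths by an edge -/
lemma PL.append {a b c d : V} {l l' : List V} (h : PL G a b l) (h' : PL G c d l')
    (hbc : G.Adj b c) (hd : List.Disjoint l l') : PL G a d (l ++ l') := by
  obtain ⟨h1, h2, h3, h4⟩ := h
  obtain ⟨g1, g2, g3, g4⟩ := h'
  refine ⟨?_, ?_, List.nodup_append.2 ⟨h3, g3, ?_⟩, ?_⟩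
  · rw [List.head?_append, h1]; rfl
  · rw [List.getLast?_append, g2]; rfl
  · intro x hx y hy hxy
    exact hd hx (hxy ▸ hy)
  · rw [List.isChain_append]
    refine ⟨h4, g4, ?_⟩
    intro x hx y hy
    rw [h2] at hx
    rw [g1] at hy
    simp at hx hy
    rw [← hx, ← hy]
    exact hbc

/-- the first part of a path -/
lemma PL.left {a b x : V} {l1 l2 : List V} (h : PL G a b (l1 ++ x :: l2)) :
    PL G a x (l1 ++ [x]) := by
  obtain ⟨h1, h2, h3, h4⟩ := h
  have h5 : l1 ++ x :: l2 = (l1 ++ [x]) ++ l2 := by simp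
  refine ⟨?_, by simp, ?_, ?_⟩
  · cases l1 with
    | nil => simpa using h1
    | cons y l1 => simpa using h1
  · rw [h5] at h3
    exact (List.nodup_append.1 h3).1
  · rw [h5] at h4
    exact h4.left_of_append

/-- the last part of a path -/
lemma PL.right {a b x : V} {l1 l2 : List V} (h : PL G a b (l1 ++ x :: l2)) :
    PL G x b (x :: l2) := by
  obtain ⟨h1, h2, h3, h4⟩ := h
  refine ⟨rfl, ?_, (List.nodup_append.1 h3).2.1, h4.right_of_append⟩
  rw [List.getLast?_append] at h2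
  simpa using h2

/-- a path between two elements of the list -/
lemma PL.mid {a b x y : V} {l1 l2 l3 : List V} (h : PL G a b (l1 ++ x :: l2 ++ y :: l3)) :
    PL G x y (x :: l2 ++ [y]) := by
  have h1 := h.left
  have h2 : l1 ++ x :: l2 ++ [y] = l1 ++ x :: (l2 ++ [y]) := by simp
  rw [h2] at h1
  have h3 := h1.right
  simpa using h3

/-- for a given predicate there is a first vertex satisfying it -/
lemma exists_first {l : List V} {p : V → Prop} (h : ∃ v ∈ l, p v) :
    ∃ l1 x l2, l = l1 ++ x :: l2 ∧ p x ∧ ∀ v ∈ l1, ¬ p v := by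
  induction l with
  | nil => simp at h
  | cons a l ih =>
    by_cases ha : p a
    · exact ⟨[], a, l, rfl, ha, by simp⟩
    · obtain ⟨v, hv, hpv⟩ := h
      have : v ∈ l := by
        rcases List.mem_cons.1 hv with rfl | hv
        · exact absurd hpv ha
        · exact hv
      obtain ⟨l1, x, l2, rfl, h2, h3⟩ := ih ⟨v, this, hpv⟩
      refine ⟨a :: l1, x, l2, rfl, h2, ?_⟩
      intro v hv
      rcases List.mem_cons.1 hv with rfl | hv
      · exact ha
      · exact h3 v hv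

/-- for a given predicate there is a last vertex satisfying it -/
lemma exists_last {l : List V} {p : V → Prop} (h : ∃ v ∈ l, p v) :
    ∃ l1 x l2, l = l1 ++ x :: l2 ∧ p x ∧ ∀ v ∈ l2, ¬ p v := by
  obtain ⟨l1, x, l2, h1, h2, h3⟩ := exists_first (l := l.reverse) (p := p) (by simpa using h)
  refine ⟨l2.reverse, x, l1.reverse, ?_, h2, by simpa using h3⟩
  have := congrArg List.reverse h1
  simpa using this

/-- a path from a vertex of `A` to a vertex of `B` contains a path from `A` to `B` whose interior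
avoids both -/
lemma PL.shorten {a b : V} {l : List V} (h : PL G a b l) {A B : V → Prop} (ha : A a) (hb : B b) :
    ∃ a' b' l', A a' ∧ B b' ∧ PL G a' b' l' ∧ (∀ v ∈ l', v ∈ l) ∧ (∀ v ∈ l', A v → v = a') ∧
      ∀ v ∈ l', B v → v = b' := by
  obtain ⟨l1, y, l2, h1, h2, h3⟩ := exists_first (l := l) (p := B) ⟨b, h.last_mem, hb⟩
  subst h1
  have h4 := h.left
  have hA : ∃ v ∈ l1 ++ [y], A v := ⟨a, h4.head_mem, ha⟩
  obtain ⟨m1, x, m2, g1, g2, g3⟩ := exists_last hA
  rw [g1] at h4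
  have h5 := h4.right
  have hsub : ∀ v ∈ x :: m2, v ∈ l1 ++ [y] := by
    intro v hv
    rw [g1]
    exact List.mem_append_right _ hv
  refine ⟨x, y, x :: m2, g2, h2, h5, ?_, ?_, ?_⟩
  · intro v hv
    have := hsub v hv
    simp at this ⊢
    tauto
  · intro v hv hAv
    rcases List.mem_cons.1 hv with rfl | hv
    · rfl
    · exact absurd hAv (g3 v hv)
  · intro v hv hBv
    have := hsub v hv
    simp at this
    rcases this with h | h
    · exact absurd hBv (h3 v h)
    · exact h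

/-! ### connected sets and paths -/

section dec
variable [DecidableEq V]

lemma conn_of_chain : ∀ {l : List V}, l ≠ [] → l.IsChain G.Adj → Conn G l.toFinset := by
  intro l
  induction l with
  | nil => intro h; exact absurd rfl h
  | cons a l ih =>
    intro _ h
    cases l with
    | nil => simpa using conn_singleton (G := G) a
    | cons b l =>
      rw [List.isChain_cons_cons] at h
      have h1 := ih (by simp) h.2
      have h2 := h1.insert (a := b) (b := a) (by simp) h.1.symm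
      simpa using h2

lemma PL.conn {a b : V} {l : List V} (h : PL G a b l) : Conn G l.toFinset :=
  conn_of_chain h.ne_nil h.2.2.2

lemma PL.card {a b : V} {l : List V} (h : PL G a b l) : l.toFinset.card = l.length :=
  List.toFinset_card_of_nodup h.2.2.1

/-- two vertices of a connected set are joined by a path in it -/
lemma exists_PL_of_conn {Z : Finset V} (hZ : Conn G Z) {a b : V} (ha : a ∈ Z) (hb : b ∈ Z) :
    ∃ l, PL G a b l ∧ ∀ v ∈ l, v ∈ Z := by
  classical
  let R := Z.filter (fun v => ∃ l, PL G a v l ∧ ∀ w ∈ l, w ∈ Z)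
  have haR : a ∈ R := mem_filter.2 ⟨ha, [a], PL.single a, by simpa using ha⟩
  by_cases hR : R = Z
  · have : b ∈ R := by rw [hR]; exact hb
    exact (mem_filter.1 this).2
  · obtain ⟨x, hx, y, hy, hxy⟩ := hZ.2 R (filter_subset _ _) ⟨a, haR⟩ hR
    obtain ⟨hxZ, l, hl, hlZ⟩ := mem_filter.1 hx
    obtain ⟨hyZ, hyR⟩ := mem_sdiff.1 hy
    exfalso
    apply hyR
    refine mem_filter.2 ⟨hyZ, ?_⟩
    by_cases hyl : y ∈ l
    · obtain ⟨l1, l2, rfl⟩ := List.append_of_mem hyl
      refine ⟨l1 ++ [y], hl.left, ?_⟩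
      intro w hw
      apply hlZ
      simp at hw ⊢
      tauto
    · refine ⟨l ++ [y], hl.append (PL.single y) hxy ?_, ?_⟩
      · intro w hw hw'
        simp at hw'
        exact hyl (hw' ▸ hw)
      · intro w hw
        simp at hw
        rcases hw with hw | rfl
        · exact hlZ w hw
        · exact hyZ

lemma exists_PL_mid {Z : Finset V} (hZ : Conn G Z) {a b : V} (ha : a ∈ Z) (hb : b ∈ Z)
    (hab : a ≠ b) :
    ∃ l, PL G a b (a :: l ++ [b]) ∧ ∀ v ∈ l, v ∈ Z ∧ v ≠ a ∧ v ≠ b := by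
  obtain ⟨l, hl, hlZ⟩ := exists_PL_of_conn hZ ha hb
  obtain ⟨l', rfl⟩ := hl.eq_both hab
  refine ⟨l', hl, fun v hv => ⟨hlZ v (by simp [hv]), ?_, ?_⟩⟩
  · rintro rfl
    have := hl.2.2.1
    simp [hv] at this
  · rintro rfl
    have := hl.2.2.1
    rw [List.nodup_append] at this
    exact this.2.2 v (by simp [hv]) v (by simp) rfl

/-- a path inside a connected set between two disjoint sets, with interior outside both -/
lemma exists_PL_between {Z A B : Finset V} (hZ : Conn G Z) (hA : (A ∩ Z).Nonempty)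
    (hB : (B ∩ Z).Nonempty) (hAB : Disjoint A B) :
    ∃ a ∈ A, ∃ b ∈ B, ∃ l, PL G a b (a :: l ++ [b]) ∧ a ∈ Z ∧ b ∈ Z ∧
      ∀ v ∈ l, v ∈ Z ∧ v ∉ A ∧ v ∉ B := by
  obtain ⟨a0, ha0⟩ := hA
  obtain ⟨b0, hb0⟩ := hB
  rw [mem_inter] at ha0 hb0
  obtain ⟨l0, hl0, hl0Z⟩ := exists_PL_of_conn hZ ha0.2 hb0.2
  obtain ⟨a, b, l, ha, hb, hl, hsub, h1, h2⟩ :=
    hl0.shorten (A := fun v => v ∈ A) (B := fun v => v ∈ B) ha0.1 hb0.1
  have hab : a ≠ b := by
    rintro rfl
    exact Finset.disjoint_left.1 hAB ha hb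
  obtain ⟨l', rfl⟩ := hl.eq_both hab
  have hnd := hl.2.2.1
  refine ⟨a, ha, b, hb, l', hl, hl0Z _ (hsub _ (by simp)), hl0Z _ (hsub _ (by simp)), ?_⟩
  intro v hv
  refine ⟨hl0Z _ (hsub _ (by simp [hv])), ?_, ?_⟩
  · intro hvA
    have := h1 v (by simp [hv]) hvA
    subst this
    simp [hv] at hnd
  · intro hvB
    have := h2 v (by simp [hv]) hvB
    subst this
    rw [List.nodup_append] at hnd
    exact hnd.2.2 v (by simp [hv]) v (by simp) rfl

/-! ### cycles -/

lemma LC.conn {l : List V} (h : LC G l) : Conn G l.toFinset := by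
  obtain ⟨_, a, b, h, _⟩ := h
  exact h.conn

lemma LC.card {l : List V} (h : LC G l) : l.toFinset.card = l.length := by
  obtain ⟨_, a, b, h, _⟩ := h
  exact h.card

omit [DecidableEq V] in
lemma LC.nodup {l : List V} (h : LC G l) : l.Nodup := by
  obtain ⟨_, a, b, h, _⟩ := h
  exact h.2.2.1

lemma FL.conn {k : ℕ} {M : Finset V} (h : FL G k M) : Conn G M := by
  obtain ⟨l, hl, _, rfl⟩ := h
  exact hl.conn

lemma FL.card {k : ℕ} {M : Finset V} (h : FL G k M) : k ≤ M.card := by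
  obtain ⟨l, hl, h, rfl⟩ := h
  rw [hl.card]
  exact h

lemma LC.FL {k : ℕ} {l : List V} (h : LC G l) (hk : k ≤ l.length) : FL G k l.toFinset :=
  ⟨l, h, hk, rfl⟩

/-- under `nu` two long cycles as lists have a common vertex -/
lemma nu_lists {k : ℕ} (hnu : ∀ M M', BM.FL G k M → BM.FL G k M' → (M ∩ M').Nonempty)
    {z z' : List V} (h : LC G z) (h' : LC G z') (hk : k ≤ z.length) (hk' : k ≤ z'.length) :
    ∃ v, v ∈ z ∧ v ∈ z' := by
  obtain ⟨v, hv⟩ := hnu _ _ (h.FL hk) (h'.FL hk')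
  rw [mem_inter] at hv
  exact ⟨v, by simpa using hv.1, by simpa using hv.2⟩

end dec

/-! ### families of disjoint lists -/

lemma nodup_of_mem_flatten {P : List (List V)} (h : P.flatten.Nodup) {l : List V} (hl : l ∈ P) :
    l.Nodup := (List.nodup_flatten.1 h).1 l hl

lemma eq_of_mem_flatten {P : List (List V)} (h : P.flatten.Nodup) {l l' : List V} (hl : l ∈ P)
    (hl' : l' ∈ P) {v : V} (hv : v ∈ l) (hv' : v ∈ l') : l = l' := by
  induction P with
  | nil => simp at hl
  | cons a P ih =>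
    rw [List.flatten_cons, List.nodup_append] at h
    rcases List.mem_cons.1 hl with h1 | h1 <;> rcases List.mem_cons.1 hl' with h2 | h2
    · rw [h1, h2]
    · exact absurd rfl (h.2.2 v (h1 ▸ hv) v (List.mem_flatten.2 ⟨l', h2, hv'⟩))
    · exact absurd rfl (h.2.2 v (h2 ▸ hv') v (List.mem_flatten.2 ⟨l, h1, hv⟩))
    · exact ih h.2.1 h1 h2

lemma nodup_of_flatten {P : List (List V)} (h : P.flatten.Nodup) (hne : ∀ l ∈ P, l ≠ []) :
    P.Nodup := by
  have h2 := (List.nodup_flatten.1 h).2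
  rw [List.Nodup]
  refine h2.imp_of_mem ?_
  rintro l l' hl _ hd rfl
  cases l with
  | nil => exact hne _ hl rfl
  | cons a l => exact hd (a := a) (by simp) (by simp)

/-- a duplicate free sublist of a disjoint family is a disjoint family -/
lemma flatten_nodup_of_subset {P P' : List (List V)} (h : P.flatten.Nodup) (hP : P'.Nodup)
    (hs : ∀ l ∈ P', l ∈ P) : P'.flatten.Nodup := by
  rw [List.nodup_flatten]
  refine ⟨fun l hl => nodup_of_mem_flatten h (hs l hl), ?_⟩
  rw [List.Nodup] at hP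
  refine hP.imp_of_mem ?_
  intro l l' hl hl' hne v hv hv'
  exact hne (eq_of_mem_flatten h (hs l hl) (hs l' hl') hv hv')

/-! ### ears, packings, linkages -/

lemma Ear.reverse {q : ℕ} {W : Finset V} {t : ℕ → V} {a b : ℕ} {l : List V}
    (h : Ear G q W t a b l) : Ear G q W t b a l.reverse := by
  obtain ⟨h1, h2, h3, h4, h5, h6⟩ := h
  refine ⟨h2, h1, fun h => h3 h.symm, h4.reverse, fun v hv => h5 v (by simpa using hv), ?_⟩
  intro v hv i hi hvi
  exact (h6 v (by simpa using hv) i hi hvi).symm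

lemma Pkg.of_subset {q : ℕ} {W : Finset V} {t : ℕ → V} {P P' : List (List V)}
    (h : Pkg G q W t P) (hP : P'.Nodup) (hs : ∀ l ∈ P', l ∈ P) : Pkg G q W t P' :=
  ⟨flatten_nodup_of_subset h.1 hP hs, fun l hl => h.2 l (hs l hl)⟩

lemma Pkg.ne_nil {q : ℕ} {W : Finset V} {t : ℕ → V} {P : List (List V)}
    (h : Pkg G q W t P) : ∀ l ∈ P, l ≠ [] := by
  intro l hl
  obtain ⟨a, b, _, _, _, h1, _⟩ := h.2 l hl
  exact h1.ne_nil

lemma Pkg.nodup {q : ℕ} {W : Finset V} {t : ℕ → V} {P : List (List V)}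
    (h : Pkg G q W t P) : P.Nodup := nodup_of_flatten h.1 h.ne_nil

lemma Pkg.perm {q : ℕ} {W : Finset V} {t : ℕ → V} {P P' : List (List V)}
    (h : Pkg G q W t P) (hp : P.Perm P') : Pkg G q W t P' :=
  ⟨(hp.flatten.nodup_iff).1 h.1, fun l hl => h.2 l (hp.mem_iff.2 hl)⟩

lemma Sys.of_subset {K A B : Finset V} {P P' : List (List V)}
    (h : Sys G K A B P) (hP : P'.Nodup) (hs : ∀ l ∈ P', l ∈ P) : Sys G K A B P' :=
  ⟨flatten_nodup_of_subset h.1 hP hs, fun l hl => h.2 l (hs l hl)⟩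

lemma Sys.ne_nil {K A B : Finset V} {P : List (List V)}
    (h : Sys G K A B P) : ∀ l ∈ P, l ≠ [] := by
  intro l hl
  obtain ⟨_, a, _, b, _, h1, _⟩ := h.2 l hl
  exact h1.ne_nil

lemma Sys.nodup {K A B : Finset V} {P : List (List V)}
    (h : Sys G K A B P) : P.Nodup := nodup_of_flatten h.1 h.ne_nil

lemma Sys.mono {K K' A B : Finset V} {P : List (List V)}
    (h : Sys G K A B P) (hK : K ⊆ K') : Sys G K' A B P :=
  ⟨h.1, fun l hl => ⟨fun v hv => hK ((h.2 l hl).1 v hv), (h.2 l hl).2⟩⟩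

lemma TSys.ne_nil {K B : Finset V} {P : List (List V)}
    (h : TSys G K B P) : ∀ l ∈ P, l ≠ [] := by
  intro l hl
  obtain ⟨_, a, b, _, h1, _⟩ := h.2 l hl
  exact h1.ne_nil

lemma TSys.nodup {K B : Finset V} {P : List (List V)}
    (h : TSys G K B P) : P.Nodup := nodup_of_flatten h.1 h.ne_nil

lemma TSys.mono {K K' B : Finset V} {P : List (List V)}
    (h : TSys G K B P) (hK : K ⊆ K') : TSys G K' B P :=
  ⟨h.1, fun l hl => ⟨fun v hv => hK ((h.2 l hl).1 v hv), (h.2 l hl).2⟩⟩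

lemma Sys.tsys {K A B : Finset V} {P : List (List V)}
    (h : Sys G K A B P) : TSys G K B P := by
  refine ⟨h.1, fun l hl => ?_⟩
  obtain ⟨h0, a, _, b, hb, h1, _, h2⟩ := h.2 l hl
  exact ⟨h0, a, b, hb, h1, h2⟩

lemma mem_Tm [DecidableEq V] {q : ℕ} {t : ℕ → V} {v : V} :
    v ∈ Tm q t ↔ ∃ i < q, t i = v := by
  simp [Tm]

/-- non-crossing is symmetric -/
lemma NCr.symm {p p' : ℕ × ℕ} (h : NCr p p') : NCr p' p := by
  obtain ⟨⟨h1, h2, h3, h4⟩, h5, h6⟩ := h
  exact ⟨⟨h1.symm, h3.symm, h2.symm, h4.symm⟩, h6, h5⟩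

/-- swapping the ends of a chord does not change crossings -/
lemma NCr.swap_left {p p' : ℕ × ℕ} (h : NCr p p') : NCr p.swap p' := by
  obtain ⟨⟨h1, h2, h3, h4⟩, h5, h6⟩ := h
  refine ⟨⟨h3, h4, h1, h2⟩, ?_, ?_⟩
  · simp only [Prod.fst_swap, Prod.snd_swap, min_comm p.2 p.1, max_comm p.2 p.1]
    exact h5
  · simp only [Prod.fst_swap, Prod.snd_swap, min_comm p.2 p.1, max_comm p.2 p.1]
    exact h6

lemma NC.perm {μ μ' : List (ℕ × ℕ)} (h : NC μ) (hp : μ.Perm μ') : NC μ' :=
  ⟨fun p hp' => h.1 p (hp.mem_iff.2 hp'), hp.pairwise h.2 (fun h => h.symm)⟩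

/-- hitting sets and havens: the haven of the long cycles is met by every long cycle -/
lemma exists_mem_bt [Fintype V] [DecidableEq V] {k K : ℕ}
    (hnu : ∀ M M', FL G k M → FL G k M' → (M ∩ M').Nonempty)
    (hH : Hav G (FL G k) univ K) {Z : Finset V} (hZ : Z.card ≤ K) {M : Finset V}
    (hM : FL G k M) : ∃ v ∈ M, v ∈ bt G (FL G k) univ Z := by
  obtain ⟨M', hM', hs⟩ := (hH.isBt hZ).2.2.1
  obtain ⟨v, hv⟩ := hnu M M' hM hM'
  rw [mem_inter] at hv
  exact ⟨v, hv.1, hs hv.2⟩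

end Pool.Agent.Helper71.BM
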