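import Pool.Agent.Helper72.EP.Lib

/-!
# Transversals of pairwise intersecting long cycles: definitions
-/

set_option autoImplicit false

namespace Pool.Agent.Helper71.BM

open Finset ErdPos

variable {V : Type}

/-! ### paths and cycles as lists of vertices -/

/-- `l` is the vertex list of a path from `a` to `b` -/
def PL (G : SimpleGraph V) (a b : V) (l : List V) : Prop :=
  l.head? = some a ∧ l.getLast? = some b ∧ l.Nodup ∧ l.IsChain G.Adj

/-- `l` is the vertex list of a cycle -/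
def LC (G : SimpleGraph V) (l : List V) : Prop :=
  3 ≤ l.length ∧ ∃ a b, PL G a b l ∧ G.Adj b a

/-- vertex sets of the cycles of length at least `k` -/
def FL [DecidableEq V] (G : SimpleGraph V) (k : ℕ) (M : Finset V) : Prop :=
  ∃ l, LC G l ∧ k ≤ l.length ∧ l.toFinset = M

/-- disjoint paths inside `K` from `A` to `B`; only the first vertices are in `A`, only the last
ones in `B` -/
def Sys (G : SimpleGraph V) (K A B : Finset V) (P : List (List V)) : Prop :=
  P.flatten.Nodup ∧ ∀ l ∈ P, (∀ v ∈ l, v ∈ K) ∧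
    ∃ a ∈ A, ∃ b ∈ B, PL G a b l ∧ (∀ v ∈ l, v ∈ A → v = a) ∧ (∀ v ∈ l, v ∈ B → v = b)

/-- disjoint paths inside `K` to `B`; only the last vertices are in `B` -/
def TSys (G : SimpleGraph V) (K B : Finset V) (P : List (List V)) : Prop :=
  P.flatten.Nodup ∧ ∀ l ∈ P, (∀ v ∈ l, v ∈ K) ∧
    ∃ a, ∃ b ∈ B, PL G a b l ∧ (∀ v ∈ l, v ∈ B → v = b)

/-- fewer than `n` vertices never separate `A` from `B` inside `K` -/
def NoSep (G : SimpleGraph V) (K A B : Finset V) (n : ℕ) : Prop :=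
  ∀ S : Finset V, S.card < n → ∃ a ∈ A, ∃ b ∈ B, ∃ l, PL G a b l ∧ ∀ v ∈ l, v ∈ K ∧ v ∉ S

/-! ### chords -/

/-- the chords `p`, `p'` have four different ends and do not cross -/
def NCr (p p' : ℕ × ℕ) : Prop :=
  (p.1 ≠ p'.1 ∧ p.1 ≠ p'.2 ∧ p.2 ≠ p'.1 ∧ p.2 ≠ p'.2) ∧
  ¬ (min p.1 p.2 < min p'.1 p'.2 ∧ min p'.1 p'.2 < max p.1 p.2 ∧ max p.1 p.2 < max p'.1 p'.2) ∧
  ¬ (min p'.1 p'.2 < min p.1 p.2 ∧ min p.1 p.2 < max p'.1 p'.2 ∧ max p'.1 p'.2 < max p.1 p.2)

/-- a non-crossing family of chords -/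
def NC (μ : List (ℕ × ℕ)) : Prop := (∀ p ∈ μ, p.1 ≠ p.2) ∧ μ.Pairwise NCr

/-- the ends of a list of chords -/
def ends (c : List (ℕ × ℕ)) : List ℕ := c.map Prod.fst ++ c.map Prod.snd

/-- the links which close the cyclic sequence of (directed) chords -/
def links (c : List (ℕ × ℕ)) : List (ℕ × ℕ) :=
  List.zipWith (fun p p' => (p.2, p'.1)) c (c.rotate 1)

/-! ### hubs -/

/-- the set `W` links the vertices `t 0, ..., t (q-1)` outside `W` in every non-crossing way, and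
these vertices are strongly attached to the haven of the family `F` -/
structure Hub [Fintype V] [DecidableEq V] (G : SimpleGraph V) (F : Finset V → Prop) (q N : ℕ)
    (W : Finset V) (t : ℕ → V) : Prop where
  inj : ∀ i < q, ∀ j < q, t i = t j → i = j
  out : ∀ i < q, t i ∉ W
  lnk : ∀ μ : List (ℕ × ℕ), NC μ → (∀ p ∈ μ, p.1 < q ∧ p.2 < q) →
    ∃ Z : ℕ × ℕ → Finset V,
      (∀ p ∈ μ, Conn G (Z p) ∧ t p.1 ∈ Z p ∧ t p.2 ∈ Z p ∧
        ∀ v ∈ Z p, v ∈ W ∨ v = t p.1 ∨ v = t p.2) ∧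
      ∀ p ∈ μ, ∀ p' ∈ μ, p ≠ p' → Disjoint (Z p) (Z p')
  ctl : ∀ S : Finset V, S.card ≤ N → ∃ i < q, t i ∈ bt G F univ (S ∪ W)

/-- the terminals -/
def Tm [DecidableEq V] (q : ℕ) (t : ℕ → V) : Finset V := (range q).image t

/-- an ear with ends `t a`, `t b`, otherwise avoiding the hub and the terminals -/
def Ear (G : SimpleGraph V) (q : ℕ) (W : Finset V) (t : ℕ → V) (a b : ℕ) (l : List V) : Prop :=
  a < q ∧ b < q ∧ a ≠ b ∧ PL G (t a) (t b) l ∧ (∀ v ∈ l, v ∉ W) ∧
    ∀ v ∈ l, ∀ i < q, v = t i → i = a ∨ i = b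

/-- a packing of ears -/
def Pkg (G : SimpleGraph V) (q : ℕ) (W : Finset V) (t : ℕ → V) (P : List (List V)) : Prop :=
  P.flatten.Nodup ∧ ∀ l ∈ P, ∃ a b, Ear G q W t a b l

/-! ### the situation of the second part -/

structure Ctx [Fintype V] [DecidableEq V] (G : SimpleGraph V) (k e K q N w : ℕ) (W : Finset V)
    (t : ℕ → V) : Prop where
  nu : ∀ M M', FL G k M → FL G k M' → (M ∩ M').Nonempty
  gap : ∀ M, FL G k M → k + e < M.card
  hit : ∀ X : Finset V, X.card ≤ K → ∃ M, FL G k M ∧ Disjoint M X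
  hub : Hub G (FL G k) q N W t
  wc : W.card ≤ w

structure Par (k e w K q N s lam Lam E1 E2 Y m : ℕ) : Prop where
  k3 : 3 ≤ k
  we : w ≤ e
  s1 : 1 ≤ s
  m1 : 1 ≤ m
  l1 : 1 ≤ lam
  hs : k ≤ s * (e - w + 1)
  hm : k ≤ m * lam
  hL : s * lam + 1 ≤ Lam
  hY : (2 * s + 1) * lam + 1 ≤ Y
  hE : Y + 1 ≤ E1
  hE2 : E1 + Lam + lam ≤ E2
  he : (2 * s + 1) * Lam + E2 + E1 + lam ≤ e - w
  hN : N = 2 * (6 * m + 5 + 2 * s ^ 2 + 2) + s
  hK : N + w + 2 * s * Lam + q ≤ K

/-- optimal fat long packings -/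
def Opt (G : SimpleGraph V) (k q : ℕ) (W : Finset V) (t : ℕ → V) (E1 Y : ℕ)
    (P : List (List V)) : Prop :=
  (Pkg G q W t P ∧ (∀ l ∈ P, E1 ≤ l.length) ∧ k ≤ P.flatten.length) ∧
  ∀ P', Pkg G q W t P' → (∀ l ∈ P', E1 ≤ l.length) → k ≤ P'.flatten.length →
    P.flatten.length + Y * P'.length ≤ P'.flatten.length + Y * P.length

/-- the middle part of a list -/
def core (L : ℕ) (l : List V) : List V := (l.drop L).take (l.length - 2 * L)

/-- the vertices in the middle parts -/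
def Ucore [DecidableEq V] (L : ℕ) (P : List (List V)) : Finset V :=
  (P.map (core L)).flatten.toFinset

/-! ### webs and ladders -/

/-- the whole row `a` -/
def row (R : ℕ → ℕ → List V) (d a : ℕ) : List V := ((List.range d).map (R a)).flatten

/-- `h` disjoint rows, each consisting of `d` consecutive segments; disjoint connected regions
`U i`, each containing the `i`th segments of all rows -/
structure Web (G : SimpleGraph V) [DecidableEq V] (h d : ℕ) (R : ℕ → ℕ → List V)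
    (U : ℕ → Finset V) : Prop where
  ne : ∀ a < h, ∀ i < d, R a i ≠ []
  nodup : ∀ a < h, (row R d a).Nodup
  chain : ∀ a < h, (row R d a).IsChain G.Adj
  dj : ∀ a < h, ∀ b < h, a ≠ b → List.Disjoint (row R d a) (row R d b)
  mem : ∀ a < h, ∀ i < d, ∀ v ∈ R a i, v ∈ U i
  conn : ∀ i < d, Conn G (U i)
  udj : ∀ i < d, ∀ j < d, i ≠ j → Disjoint (U i) (U j)

/-- a connected set avoiding a small set `S` which meets `g` rows avoiding `S` is inside `β(S)` -/
def Ctl [Fintype V] [DecidableEq V] (G : SimpleGraph V) (F : Finset V → Prop) (N g h d : ℕ)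
    (R : ℕ → ℕ → List V) : Prop :=
  ∀ S Z : Finset V, S.card ≤ N → Conn G Z → Disjoint Z S →
    (∃ I : Finset ℕ, I.card = g ∧
      ∀ a ∈ I, a < h ∧ (∀ v ∈ row R d a, v ∉ S) ∧ ∃ v ∈ row R d a, v ∈ Z) →
    Z ⊆ bt G F univ S

/-- a web with paths `Q s j` (interior vertices only) between the rows `s`, `s+1` in column `j` -/
structure Lad (G : SimpleGraph V) [DecidableEq V] (h d : ℕ) (R : ℕ → ℕ → List V)
    (U : ℕ → Finset V) (Q : ℕ → ℕ → List V) : Prop where
  web : Web G h d R U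
  qc : ∀ s, s + 1 < h → ∀ j < d, ∃ x ∈ R s j, ∃ y ∈ R (s + 1) j, PL G x y (x :: Q s j ++ [y])
  qu : ∀ s, s + 1 < h → ∀ j < d, ∀ v ∈ Q s j, v ∈ U j
  qr : ∀ s, s + 1 < h → ∀ j < d, ∀ v ∈ Q s j, ∀ a < h, v ∉ row R d a

/-- the vertices of the rows `1, ..., r` and of the paths between them in the columns
`j0, ..., j0 + ℓ - 1` -/
def wset [DecidableEq V] (R : ℕ → ℕ → List V) (Q : ℕ → ℕ → List V) (r j0 ℓ : ℕ) : Finset V :=
  (range ℓ).biUnion (fun j =>
    (range r).biUnion (fun s => (R (s + 1) (j0 + j)).toFinset) ∪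
    (range (r - 1)).biUnion (fun s => (Q (s + 1) (j0 + j)).toFinset))

/-! ### meshes -/

/-- `C` is a big set with exactly `m` neighbours, no big subset of `C` has fewer neighbours, and
the neighbours are on a connected subgraph `H` of maximum degree three outside `C` -/
structure Mesh [Fintype V] [DecidableEq V] (G : SimpleGraph V) (F : Finset V → Prop) (m : ℕ)
    (C A : Finset V) (H : SimpleGraph V) : Prop where
  big : Big G F univ C
  card : (Nb G univ C).card = m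
  free : ∀ C', Big G F univ C' → C' ⊆ C → m ≤ (Nb G univ C').card
  sub : Nb G univ C ⊆ A
  dj : Disjoint A C
  le : H ≤ G
  conn : Conn H A
  deg : ∀ v ∈ A, (H.neighborSet v).ncard ≤ 3

/-- the graph without the edges inside `X` -/
def Gx (G : SimpleGraph V) (X : Finset V) : SimpleGraph V where
  Adj u v := G.Adj u v ∧ ¬ (u ∈ X ∧ v ∈ X)
  symm := by
    constructor
    rintro u v ⟨h1, h2⟩
    exact ⟨h1.symm, fun h => h2 ⟨h.2, h.1⟩⟩
  loopless := by
    constructor
    rintro u ⟨h1, _⟩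
    exact G.loopless.irrefl _ h1

end Pool.Agent.Helper71.BM
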