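import Pool.Agent.Helper71.BM.Main

/-!
# Transversals of pairwise intersecting long cycles: the theorem for walks
-/

set_option autoImplicit false

namespace Pool.Agent.Helper71.BM

open Finset ErdPos

/-- the theorem with cycles as closed walks -/
theorem main_walks (hW1 : ST_LCW1) (hW2 : ST_LCW2)
    (hF : ∀ a b : ℕ, 1 ≤ a → 1 ≤ b →
      ∃ k0 : ℕ, ∀ k, k0 ≤ k → ∀ (V : Type) [Fintype V] [DecidableEq V] (G : SimpleGraph V),
        (∀ M M', FL G k M → FL G k M' → (M ∩ M').Nonempty) →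
        (∃ M, FL G k M ∧ a * M.card ≤ (a + 1) * k) ∨
          ∃ X : Finset V, b * X.card ≤ k ∧ ∀ M, FL G k M → (M ∩ X).Nonempty)
    (ε θ : ℝ) (hε : 0 < ε) (hθ : 0 < θ) :
    ∃ k0 : ℕ, ∀ k : ℕ, k0 ≤ k → ∀ (V : Type) [Fintype V] (G : SimpleGraph V),
      (∀ (u v : V) (p : G.Walk u u) (q : G.Walk v v),
        p.IsCycle → q.IsCycle → k ≤ p.length → k ≤ q.length →
          ∃ x : V, x ∈ p.support ∧ x ∈ q.support) →
      ∃ S : Finset V, (S.card : ℝ) ≤ (1 + ε) * k ∧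
        (∀ (u : V) (p : G.Walk u u), p.IsCycle → k ≤ p.length → ∃ x ∈ S, x ∈ p.support) ∧
        ((S.card : ℝ) ≤ θ * k ∨
          ∃ (u : V) (p : G.Walk u u), p.IsCycle ∧ k ≤ p.length ∧ ∀ x, x ∈ S ↔ x ∈ p.support) := by
  classical
  obtain ⟨a, ha⟩ := exists_nat_gt (1 / ε)
  obtain ⟨b, hb⟩ := exists_nat_gt (1 / min θ 1)
  have hθ' : 0 < min θ 1 := lt_min hθ one_pos
  have ha0 : (0 : ℝ) < a := lt_trans (by positivity) ha
  have hb0 : (0 : ℝ) < b := lt_trans (by positivity) hb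
  have ha1 : 1 ≤ a := by exact_mod_cast ha0
  have hb1 : 1 ≤ b := by exact_mod_cast hb0
  have haε : 1 ≤ a * ε := by
    rw [div_lt_iff₀ hε] at ha; exact ha.le
  have hbθ : 1 ≤ b * min θ 1 := by
    rw [div_lt_iff₀ hθ'] at hb; exact hb.le
  obtain ⟨k0, hk0⟩ := hF a b ha1 hb1
  refine ⟨k0, fun k hk V _ G hnu => ?_⟩
  have hnu' : ∀ M M', FL G k M → FL G k M' → (M ∩ M').Nonempty := by
    rintro M M' ⟨l, hl, hkl, rfl⟩ ⟨l', hl', hkl', rfl⟩
    obtain ⟨u, p, hp, hpl, hps⟩ := hW2 V G l hl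
    obtain ⟨v, q, hq, hql, hqs⟩ := hW2 V G l' hl'
    obtain ⟨x, hx, hx'⟩ := hnu u v p q hp hq (by omega) (by omega)
    exact ⟨x, mem_inter.2 ⟨by simpa using (hps x).1 hx, by simpa using (hqs x).1 hx'⟩⟩
  -- transversals of the family are transversals of the closed walks
  have htr : ∀ X : Finset V, (∀ M, FL G k M → (M ∩ X).Nonempty) →
      ∀ (u : V) (p : G.Walk u u), p.IsCycle → k ≤ p.length → ∃ x ∈ X, x ∈ p.support := by
    intro X hX u p hp hkp
    obtain ⟨l, hl, hlen, hs⟩ := hW1 V G u p hp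
    obtain ⟨x, hx⟩ := hX l.toFinset (hl.FL (by omega))
    rw [mem_inter] at hx
    exact ⟨x, hx.2, (hs x).1 (by simpa using hx.1)⟩
  have hkk : (0 : ℝ) ≤ k := Nat.cast_nonneg k
  rcases hk0 k hk V G hnu' with ⟨M, hM, hMk⟩ | ⟨X, hX, hXt⟩
  · have hMr : (M.card : ℝ) ≤ (1 + ε) * k := by
      have h1 : (a : ℝ) * M.card ≤ (a + 1) * k := by exact_mod_cast hMk
      have h2 : (a : ℝ) * ((1 + ε) * k) = a * k + (a * ε) * k := by ring
      have h3 : (k : ℝ) ≤ (a * ε) * k := by nlinarith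
      have h4 : (a : ℝ) * M.card ≤ a * ((1 + ε) * k) := by rw [h2]; linarith
      exact le_of_mul_le_mul_left h4 ha0
    refine ⟨M, hMr, htr M (fun M' hM' => hnu' M' M hM' hM), Or.inr ?_⟩
    obtain ⟨l, hl, hkl, rfl⟩ := hM
    obtain ⟨u, p, hp, hpl, hps⟩ := hW2 V G l hl
    exact ⟨u, p, hp, by omega, fun x => by rw [hps x]; simp⟩
  · have hXr : (X.card : ℝ) ≤ min θ 1 * k := by
      have h1 : (b : ℝ) * X.card ≤ k := by exact_mod_cast hX
      have h3 : (k : ℝ) ≤ (b * min θ 1) * k := by nlinarith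
      have h4 : (b : ℝ) * X.card ≤ b * (min θ 1 * k) := by rw [← mul_assoc]; linarith
      exact le_of_mul_le_mul_left h4 hb0
    refine ⟨X, ?_, htr X hXt, Or.inl ?_⟩
    · have h1 : min θ 1 * k ≤ 1 * (k : ℝ) := mul_le_mul_of_nonneg_right (min_le_right _ _) hkk
      nlinarith
    · exact hXr.trans (mul_le_mul_of_nonneg_right (min_le_left _ _) hkk)

end Pool.Agent.Helper71.BM
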