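import Pool.Agent.Helper71.BM.Basic

/-!
# Transversals of pairwise intersecting long cycles: assembly
-/

set_option autoImplicit false

namespace Pool.Agent.Helper71.BM

open Finset ErdPos

/-- the second part -/
theorem part2 (hMLP : ST_MLP) (hEXS : ST_EXS) (hOPT : ST_OPT) (hBND : ST_BND) (hFIN : ST_FIN)
    (V : Type) [Fintype V] [DecidableEq V] (G : SimpleGraph V) (k e K q N w : ℕ) (W : Finset V)
    (t : ℕ → V) (hc : Ctx G k e K q N w W t) (s lam Lam E1 E2 Y m : ℕ)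
    (hp : Par k e w K q N s lam Lam E1 E2 Y m) : False := by
  obtain ⟨P, hP⟩ := hOPT V G k e K q N w W t hc s lam Lam E1 E2 Y m hp
    (hEXS V G k e K q N w W t hc s lam Lam E1 E2 Y m hp)
  obtain ⟨Q, hQ, hlen⟩ := hMLP V G _ _ _ _
    (hFIN V G k e K q N w W t hc s lam Lam E1 E2 Y m hp P hP)
  exact hBND V G k e K q N w W t hc s lam Lam E1 E2 Y m hp P hP Q hQ hlen

/-- the choice of the parameters -/
theorem par_ok (a b q N K0 : ℕ) (ha : 1 ≤ a) (hb : 1 ≤ b) (s C1 L c m : ℕ) (hs : s = 2 * a)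
    (hC1 : C1 = 2 * s ^ 2 + 6 * s + 4) (hL : L = 4 * a * C1 + 16 * b * s ^ 2)
    (hc : c = 16 * a * b) (hm : m = 2 * L)
    (hN : N = 2 * (6 * m + 5 + 2 * s ^ 2 + 2) + s) :
    ∃ k0 : ℕ, ∀ k, k0 ≤ k →
      (3 ≤ k ∧ k ≤ 2 * c * (k / c) ∧ K0 ≤ k / c ∧ 2 * (k / c) + K0 ≤ k / b) ∧
      Par k (k / a) (k / c) (k / b) q N s (k / L) (s * (k / L) + 1) ((2 * s + 1) * (k / L) + 2)
        ((3 * s + 2) * (k / L) + 3) ((2 * s + 1) * (k / L) + 1) m := by
  have hs1 : 1 ≤ s := by omega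
  have hC1' : 1 ≤ C1 := by omega
  have hL1 : 4 * a * C1 ≤ L := by omega
  have hL2 : 16 * b * s ^ 2 ≤ L := by omega
  have hLpos : 1 ≤ L := by
    have : 1 ≤ 4 * a * C1 := Nat.mul_pos (by omega) hC1'
    omega
  have hc1 : 16 * a ≤ c := by
    rw [hc]; exact Nat.le_mul_of_pos_right _ hb
  have hc2 : 16 * b ≤ c := by
    rw [hc]
    calc 16 * b = 16 * 1 * b := by ring
      _ ≤ 16 * a * b := Nat.mul_le_mul_right _ (Nat.mul_le_mul_left _ ha)
  have hcpos : 1 ≤ c := by omega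
  refine ⟨3 + L + c * (K0 + 1) + 4 * a * (2 * s + 8) + 4 * b * (N + q + 2 * s + K0 + 2),
    fun k hk => ?_⟩
  have hk3 : 3 ≤ k := by omega
  have hkL : L ≤ k := by omega
  have hkc : c * (K0 + 1) ≤ k := by omega
  have hka : 4 * a * (2 * s + 8) ≤ k := by omega
  have hkb : 4 * b * (N + q + 2 * s + K0 + 2) ≤ k := by omega
  clear hk
  -- the quotients
  obtain ⟨w, hw⟩ : ∃ w, w = k / c := ⟨_, rfl⟩
  obtain ⟨e, he⟩ : ∃ e, e = k / a := ⟨_, rfl⟩
  obtain ⟨K, hK⟩ : ∃ K, K = k / b := ⟨_, rfl⟩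
  obtain ⟨lam, hlam⟩ : ∃ lam, lam = k / L := ⟨_, rfl⟩
  rw [← hw, ← he, ← hK, ← hlam]
  have w1 : c * w ≤ k := by rw [hw]; exact Nat.mul_div_le k c
  have w2 : k < c * (w + 1) := by rw [hw]; exact Nat.lt_mul_div_succ k hcpos
  have w3 : K0 + 1 ≤ w := by
    rw [hw, Nat.le_div_iff_mul_le hcpos]; rw [mul_comm]; exact hkc
  have e1 : a * e ≤ k := by rw [he]; exact Nat.mul_div_le k a
  have e2 : k < a * (e + 1) := by rw [he]; exact Nat.lt_mul_div_succ k ha
  have K1 : b * K ≤ k := by rw [hK]; exact Nat.mul_div_le k b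
  have K2 : k < b * (K + 1) := by rw [hK]; exact Nat.lt_mul_div_succ k hb
  have l1 : L * lam ≤ k := by rw [hlam]; exact Nat.mul_div_le k L
  have l2 : k < L * (lam + 1) := by rw [hlam]; exact Nat.lt_mul_div_succ k hLpos
  have l3 : 1 ≤ lam := by
    rw [hlam, Nat.le_div_iff_mul_le hLpos]; omega
  -- bounds of products
  have aw : 16 * (a * w) ≤ k := by
    calc 16 * (a * w) = 16 * a * w := by ring
      _ ≤ c * w := Nat.mul_le_mul_right _ hc1
      _ ≤ k := w1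
  have bw : 16 * (b * w) ≤ k := by
    calc 16 * (b * w) = 16 * b * w := by ring
      _ ≤ c * w := Nat.mul_le_mul_right _ hc2
      _ ≤ k := w1
  have al : 4 * (a * (C1 * lam)) ≤ k := by
    calc 4 * (a * (C1 * lam)) = 4 * a * C1 * lam := by ring
      _ ≤ L * lam := Nat.mul_le_mul_right _ hL1
      _ ≤ k := l1
  have bl : 16 * (b * (s ^ 2 * lam)) ≤ k := by
    calc 16 * (b * (s ^ 2 * lam)) = 16 * b * s ^ 2 * lam := by ring
      _ ≤ L * lam := Nat.mul_le_mul_right _ hL2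
      _ ≤ k := l1
  have e3 : k < a * e + a := by rw [← Nat.mul_succ]; exact e2
  have K3 : k < b * K + b := by rw [← Nat.mul_succ]; exact K2
  -- the main inequality
  have hmain : (2 * s + 1) * (s * lam + 1) + ((3 * s + 2) * lam + 3) + ((2 * s + 1) * lam + 2) +
      lam + w ≤ e := by
    apply Nat.le_of_mul_le_mul_left _ ha
    have h1 : a * ((2 * s + 1) * (s * lam + 1) + ((3 * s + 2) * lam + 3) +
        ((2 * s + 1) * lam + 2) + lam + w) = a * (C1 * lam) + a * (2 * s + 6) + a * w := by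
      rw [hC1]; ring
    rw [h1]
    have h2 : a * (2 * s + 8) = a * (2 * s + 6) + 2 * a := by ring
    have h3 : 4 * (a * (2 * s + 8)) ≤ k := by rw [← mul_assoc]; exact hka
    omega
  have hwe : w ≤ e := by omega
  have hKm : N + w + 2 * s * (s * lam + 1) + q ≤ K := by
    apply Nat.le_of_mul_le_mul_left _ hb
    have h1 : b * (N + w + 2 * s * (s * lam + 1) + q) =
        b * (N + q + 2 * s) + b * w + 2 * (b * (s ^ 2 * lam)) := by ring
    rw [h1]
    have h2 : b * (N + q + 2 * s + K0 + 2) = b * (N + q + 2 * s) + b * (K0 + 2) := by ring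
    have h3 : 4 * (b * (N + q + 2 * s + K0 + 2)) ≤ k := by rw [← mul_assoc]; exact hkb
    have h4 : b * (K0 + 2) = b * K0 + 2 * b := by ring
    omega
  have hK0 : 2 * w + K0 ≤ K := by
    apply Nat.le_of_mul_le_mul_left _ hb
    have h1 : b * (2 * w + K0) = 2 * (b * w) + b * K0 := by ring
    rw [h1]
    have h2 : b * (N + q + 2 * s + K0 + 2) = b * (N + q + 2 * s) + b * (K0 + 2) := by ring
    have h3 : 4 * (b * (N + q + 2 * s + K0 + 2)) ≤ k := by rw [← mul_assoc]; exact hkb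
    have h4 : b * (K0 + 2) = b * K0 + 2 * b := by ring
    omega
  refine ⟨⟨hk3, ?_, by omega, hK0⟩, ⟨hk3, hwe, hs1, by omega, l3, ?_, ?_, le_rfl, le_rfl,
    by omega, ?_, by omega, hN, hKm⟩⟩
  · have h1 : c * (w + 1) ≤ c * (2 * w) := Nat.mul_le_mul_left _ (by omega)
    have h2 : c * (2 * w) = 2 * c * w := by ring
    omega
  · have h1 : s * (e - w + 1) + 2 * (a * w) = 2 * (a * e) + 2 * a := by
      obtain ⟨f, rfl⟩ := Nat.exists_eq_add_of_le hwe
      rw [Nat.add_sub_cancel_left, hs]; ring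
    omega
  · rw [hm]
    have h1 : L * (lam + 1) ≤ L * (2 * lam) := Nat.mul_le_mul_left _ (by omega)
    have h2 : L * (2 * lam) = 2 * L * lam := by ring
    omega
  · have : (3 * s + 2) * lam = (2 * s + 1) * lam + s * lam + lam := by ring
    omega

/-- the main theorem, for vertex sets of cycles -/
theorem main_FL (hHUB : ST_HUB)
    (hP2 : ∀ (V : Type) [Fintype V] [DecidableEq V] (G : SimpleGraph V) (k e K q N w : ℕ)
      (W : Finset V) (t : ℕ → V), Ctx G k e K q N w W t → ∀ s lam Lam E1 E2 Y m : ℕ,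
      Par k e w K q N s lam Lam E1 E2 Y m → False) (a b : ℕ) (ha : 1 ≤ a) (hb : 1 ≤ b) :
    ∃ k0 : ℕ, ∀ k, k0 ≤ k → ∀ (V : Type) [Fintype V] [DecidableEq V] (G : SimpleGraph V),
      (∀ M M', FL G k M → FL G k M' → (M ∩ M').Nonempty) →
      (∃ M, FL G k M ∧ a * M.card ≤ (a + 1) * k) ∨
        ∃ X : Finset V, b * X.card ≤ k ∧ ∀ M, FL G k M → (M ∩ X).Nonempty := by
  obtain ⟨q, K0, hhub⟩ := hHUB (2 * (6 * (2 * (4 * a * (2 * (2 * a) ^ 2 + 6 * (2 * a) + 4) +
    16 * b * (2 * a) ^ 2)) + 5 + 2 * (2 * a) ^ 2 + 2) + 2 * a) (2 * (16 * a * b))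
  obtain ⟨k0, hk0⟩ := par_ok a b q _ K0 ha hb (2 * a) _ _ (16 * a * b) _ rfl rfl rfl rfl rfl rfl
  refine ⟨k0, fun k hk V _ _ G hnu => ?_⟩
  obtain ⟨⟨h3, hkc, hK0, hK⟩, hpar⟩ := hk0 k hk
  by_contra hcon
  push Not at hcon
  obtain ⟨hgap, hhit⟩ := hcon
  have hhit' : ∀ X : Finset V, X.card ≤ k / b → ∃ M, FL G k M ∧ Disjoint M X := by
    intro X hX
    have : b * X.card ≤ k := by
      calc b * X.card ≤ b * (k / b) := Nat.mul_le_mul_left _ hX
        _ ≤ k := Nat.mul_div_le k b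
    obtain ⟨M, hM, hMX⟩ := hhit X this
    refine ⟨M, hM, ?_⟩
    rw [Finset.disjoint_iff_inter_eq_empty]
    exact hMX
  obtain ⟨W, t, hW, hwc⟩ := hhub V G k (k / (16 * a * b)) (k / b) h3 hkc hK0 hK hnu hhit'
  refine hP2 V G k (k / a) (k / b) q _ (k / (16 * a * b)) W t
    ⟨hnu, ?_, hhit', hW, hwc⟩ _ _ _ _ _ _ _ hpar
  intro M hM
  have h1 := hgap M hM
  by_contra hle
  push Not at hle
  have h2 : a * M.card ≤ a * (k + k / a) := Nat.mul_le_mul_left _ hle
  have h4 : a * (k + k / a) ≤ (a + 1) * k := by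
    have := Nat.mul_div_le k a
    calc a * (k + k / a) = a * k + a * (k / a) := by ring
      _ ≤ a * k + k := by omega
      _ = (a + 1) * k := by ring
  omega

end Pool.Agent.Helper71.BM
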