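import Pool.Agent.Helper71.BM.Basic

/-!
# Module PR0: pairing consecutive starts
-/

set_option autoImplicit false

namespace Pool.Agent.Helper71.BM

open Finset ErdPos

variable {V : Type}

lemma pr0_inj {l : List V} (hl : l.Nodup) {m m' : ℕ} {x : V} (h : l[m]? = some x)
    (h' : l[m']? = some x) : m = m' := by
  rw [List.getElem?_eq_some_iff] at h h'
  obtain ⟨h1, h2⟩ := h
  obtain ⟨h3, h4⟩ := h'
  exact (hl.getElem_inj_iff).1 (h2.trans h4.symm)

lemma pr0_mem_mid {l : List V} {i j : ℕ} {v : V} (h : v ∈ (l.drop (i + 1)).take (j - i - 1)) :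
    ∃ m, i < m ∧ m < j ∧ l[m]? = some v := by
  rw [List.mem_iff_getElem?] at h
  obtain ⟨n, hn⟩ := h
  rw [List.getElem?_take] at hn
  split at hn
  · rw [List.getElem?_drop] at hn
    exact ⟨i + 1 + n, by omega, by omega, hn⟩
  · simp at hn

lemma pr0_mid_nodup {l : List V} (hl : l.Nodup) (i j : ℕ) :
    ((l.drop (i + 1)).take (j - i - 1)).Nodup :=
  (hl.sublist (List.drop_sublist _ _)).sublist (List.take_sublist _ _)

lemma pr0_min {Q : List (List V)} {p : List V → ℕ → Prop} (hQ : Q ≠ [])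
    (h : ∀ q ∈ Q, ∃ m, p q m) :
    ∃ q m, q ∈ Q ∧ p q m ∧ ∀ q' ∈ Q, ∀ m', p q' m' → m ≤ m' := by
  classical
  have hex : ∃ m, ∃ q ∈ Q, p q m := by
    cases Q with
    | nil => exact absurd rfl hQ
    | cons q Q =>
      obtain ⟨m, hm⟩ := h q (by simp)
      exact ⟨m, q, by simp, hm⟩
  obtain ⟨q, hq, hp⟩ := Nat.find_spec hex
  exact ⟨q, Nat.find hex, hq, hp, fun q' hq' m' hm' => Nat.find_min' hex ⟨q', hq', hm'⟩⟩

lemma pr0_take {Q : List (List V)} {q : List V} (hq : q ∈ Q) :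
    ∃ Q' : List (List V), Q.Perm (q :: Q') := by
  obtain ⟨s, t, rfl⟩ := List.append_of_mem hq
  exact ⟨s ++ t, List.perm_middle⟩

lemma pr0_aux {l : List V} (hl : l.Nodup) : ∀ (n : ℕ) (Q : List (List V)) (c : ℕ),
    Q.length ≤ n → Q.flatten.Nodup →
    (∀ q ∈ Q, ∃ m x, c ≤ m ∧ l[m]? = some x ∧ q.head? = some x ∧ ∀ v ∈ q, v ∈ l → v = x) →
    ∃ D : List (Rc V), Q.length ≤ 2 * D.length + 1 ∧
      (∀ r ∈ D, r.ok [l] ∧ c ≤ r.i ∧ r.p ∈ Q ∧ r.p' ∈ Q) ∧ (D.map Rc.F).flatten.Nodup ∧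
      (D.flatMap (fun r => [r.p, r.p'])).Nodup := by
  intro n
  induction n with
  | zero =>
    intro Q c hn _ _
    exact ⟨[], by omega, by simp, by simp, by simp⟩
  | succ n ih =>
    intro Q c hn hnd hQ
    by_cases h1 : Q.length ≤ 1
    · exact ⟨[], by simpa using h1, by simp, by simp, by simp⟩
    have hQ0 : Q ≠ [] := by
      rintro rfl
      simp at h1
    obtain ⟨q1, i, hq1, ⟨x, hci, hxi, hxq, hx⟩, hmin1⟩ := pr0_min
      (p := fun q m => ∃ x, c ≤ m ∧ l[m]? = some x ∧ q.head? = some x ∧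
        ∀ v ∈ q, v ∈ l → v = x) hQ0 hQ
    obtain ⟨Q1, hp1⟩ := pr0_take hq1
    have hlen1 : Q.length = Q1.length + 1 := by rw [hp1.length_eq]; rfl
    have hnd1 : (q1 :: Q1).flatten.Nodup := (hp1.flatten.nodup_iff).1 hnd
    have hQ1 : Q1 ≠ [] := by
      rintro rfl
      simp at hlen1
      omega
    have hmem1 : ∀ q ∈ Q1, q ∈ Q := fun q hq => hp1.mem_iff.2 (by simp [hq])
    obtain ⟨q2, j, hq2, ⟨y, hcj, hyj, hyq, hy⟩, hmin2⟩ := pr0_min
      (p := fun q m => ∃ x, c ≤ m ∧ l[m]? = some x ∧ q.head? = some x ∧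
        ∀ v ∈ q, v ∈ l → v = x) hQ1 (fun q hq => hQ q (hmem1 q hq))
    obtain ⟨Q2, hp2⟩ := pr0_take hq2
    have hlen2 : Q1.length = Q2.length + 1 := by rw [hp2.length_eq]; rfl
    rw [List.flatten_cons, List.nodup_append] at hnd1
    obtain ⟨hndq1, hndQ1, hdis1⟩ := hnd1
    have hnd2 : (q2 :: Q2).flatten.Nodup := (hp2.flatten.nodup_iff).1 hndQ1
    rw [List.flatten_cons, List.nodup_append] at hnd2
    obtain ⟨hndq2, hndQ2, hdis2⟩ := hnd2
    have hmem2 : ∀ q ∈ Q2, q ∈ Q1 := fun q hq => hp2.mem_iff.2 (by simp [hq])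
    have d1 : ∀ q ∈ Q1, ∀ v ∈ q1, v ∈ q → False := fun q hq v hv hv' =>
      hdis1 v hv v (List.mem_flatten.2 ⟨q, hq, hv'⟩) rfl
    have d2 : ∀ q ∈ Q2, ∀ v ∈ q2, v ∈ q → False := fun q hq v hv hv' =>
      hdis2 v hv v (List.mem_flatten.2 ⟨q, hq, hv'⟩) rfl
    have hxq' : x ∈ q1 := List.mem_of_mem_head? (by rw [hxq]; rfl)
    have hyq' : y ∈ q2 := List.mem_of_mem_head? (by rw [hyq]; rfl)
    have hij : i < j := by
      have h2 := hmin1 q2 (hmem1 q2 hq2) j ⟨y, hcj, hyj, hyq, hy⟩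
      rcases Nat.lt_or_eq_of_le h2 with h | h
      · exact h
      · exfalso
        rw [h, hyj] at hxi
        simp at hxi
        exact d1 q2 hq2 x hxq' (hxi ▸ hyq')
    obtain ⟨D, hD1, hD2, hD3, hD4⟩ := ih Q2 (j + 1) (by omega) hndQ2 (by
      intro q hq
      obtain ⟨m, z, h2, h3, h4, h5⟩ := hQ q (hmem1 q (hmem2 q hq))
      have h6 := hmin2 q (hmem2 q hq) m ⟨z, h2, h3, h4, h5⟩
      refine ⟨m, z, ?_, h3, h4, h5⟩
      rcases Nat.lt_or_eq_of_le h6 with h | h
      · exact h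
      · exfalso
        rw [← h, hyj] at h3
        simp at h3
        have hz : z ∈ q := List.mem_of_mem_head? (by rw [h4]; rfl)
        exact d2 q hq y hyq' (h3 ▸ hz))
    have hxl : x ∈ l := List.mem_of_getElem? hxi
    have hyl : y ∈ l := List.mem_of_getElem? hyj
    -- the vertices of the lists
    have hmidl : ∀ v ∈ (l.drop (i + 1)).take (j - i - 1), v ∈ l := fun v hv =>
      List.mem_of_mem_drop (List.mem_of_mem_take hv)
    have hF : ∀ r ∈ D, ∀ v ∈ r.F, (∃ q ∈ Q2, v ∈ q ∧ (v ∈ l → ∃ m, j < m ∧ l[m]? = some v)) ∨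
        ∃ m, j < m ∧ l[m]? = some v := by
      intro r hr v hv
      obtain ⟨⟨hrl, hrij, ⟨a, ha1, ha2⟩, b, hb1, hb2⟩, hrc, hrp, hrp'⟩ := hD2 r hr
      have hrl' : r.l = l := by simpa using hrl
      rw [hrl'] at ha1 hb1
      have key : ∀ q ∈ Q2, ∀ m a, l[m]? = some a → q.head? = some a → j < m → v ∈ q → v ∈ l →
          ∃ m, j < m ∧ l[m]? = some v := by
        intro q hq m a hm1 hm2 hjm hvq hvl
        obtain ⟨m', z, _, h3, h4, h5⟩ := hQ q (hmem1 q (hmem2 q hq))
        rw [hm2] at h4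
        simp at h4
        rw [h5 v hvq hvl, ← h4]
        exact ⟨m, hjm, hm1⟩
      unfold Rc.F at hv
      rw [List.mem_append, List.mem_append, List.mem_reverse] at hv
      rcases hv with (hv | hv) | hv
      · exact Or.inl ⟨r.p, hrp, hv, key r.p hrp r.i a ha1 ha2 (by omega) hv⟩
      · right
        obtain ⟨m, h2, h3, h4⟩ := pr0_mem_mid hv
        rw [hrl'] at h4
        exact ⟨m, by omega, h4⟩
      · exact Or.inl ⟨r.p', hrp', hv, key r.p' hrp' r.j b hb1 hb2 (by omega) hv⟩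
    refine ⟨⟨l, i, j, q1, q2⟩ :: D, ?_, ?_, ?_, ?_⟩
    · rw [List.length_cons]; omega
    · intro r hr
      rcases List.mem_cons.1 hr with rfl | hr
      · exact ⟨⟨by simp, hij, ⟨x, hxi, hxq⟩, y, hyj, hyq⟩, hci, hq1, hmem1 q2 hq2⟩
      · obtain ⟨⟨h2, h3⟩, h4, h5, h6⟩ := hD2 r hr
        exact ⟨⟨h2, h3⟩, by omega, hmem1 _ (hmem2 _ h5), hmem1 _ (hmem2 _ h6)⟩
    · rw [List.map_cons, List.flatten_cons, List.nodup_append]
      refine ⟨?_, hD3, ?_⟩
      · show (q1.reverse ++ (l.drop (i + 1)).take (j - i - 1) ++ q2).Nodup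
        rw [List.nodup_append, List.nodup_append]
        refine ⟨⟨List.nodup_reverse.2 hndq1, pr0_mid_nodup hl i j, ?_⟩, hndq2, ?_⟩
        · intro v hv w hw hvw
          subst hvw
          obtain ⟨m, h2, h3, h4⟩ := pr0_mem_mid hw
          have h5 := hx v (by simpa using hv) (hmidl v hw)
          rw [h5] at h4
          have := pr0_inj hl hxi h4
          omega
        · intro v hv w hw hvw
          subst hvw
          rcases List.mem_append.1 hv with hv | hv
          · exact d1 q2 hq2 v (by simpa using hv) hw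
          · obtain ⟨m, h2, h3, h4⟩ := pr0_mem_mid hv
            have h5 := hy v hw (hmidl v hv)
            rw [h5] at h4
            have := pr0_inj hl hyj h4
            omega
      · intro v hv w hw hvw
        subst hvw
        rw [List.mem_flatten] at hw
        obtain ⟨f, hf, hvf⟩ := hw
        obtain ⟨r, hr, rfl⟩ := List.mem_map.1 hf
        have hv' : v ∈ q1 ∨ v ∈ (l.drop (i + 1)).take (j - i - 1) ∨ v ∈ q2 := by
          have h2 : v ∈ q1.reverse ++ (l.drop (i + 1)).take (j - i - 1) ++ q2 := hv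
          simp only [List.mem_append, List.mem_reverse] at h2
          tauto
        rcases hF r hr v hvf with ⟨q, hq, hvq, hvl⟩ | ⟨m, hm1, hm2⟩
        · rcases hv' with h | h | h
          · exact d1 q (hmem2 q hq) v h hvq
          · obtain ⟨m, hm1, hm2⟩ := hvl (hmidl v h)
            obtain ⟨m', h2, h3, h4⟩ := pr0_mem_mid h
            have := pr0_inj hl hm2 h4
            omega
          · exact d2 q hq v h hvq
        · have hvl : v ∈ l := List.mem_of_getElem? hm2
          rcases hv' with h | h | h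
          · have h5 := hx v h hvl
            rw [h5] at hm2
            have := pr0_inj hl hxi hm2
            omega
          · obtain ⟨m', h2, h3, h4⟩ := pr0_mem_mid h
            have := pr0_inj hl hm2 h4
            omega
          · have h5 := hy v h hvl
            rw [h5] at hm2
            have := pr0_inj hl hyj hm2
            omega
    · rw [List.flatMap_cons]
      show ([q1, q2] ++ _).Nodup
      rw [List.nodup_append]
      have hsub : ∀ q ∈ D.flatMap (fun r => [r.p, r.p']), q ∈ Q2 := by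
        intro q hq
        rw [List.mem_flatMap] at hq
        obtain ⟨r, hr, hq⟩ := hq
        obtain ⟨_, _, h5, h6⟩ := hD2 r hr
        simp at hq
        rcases hq with rfl | rfl
        · exact h5
        · exact h6
      refine ⟨?_, hD4, ?_⟩
      · simp
        rintro rfl
        exact d1 q1 hq2 x hxq' hxq'
      · intro q hq q' hq' he
        subst he
        have h7 := hsub q hq'
        simp at hq
        rcases hq with rfl | rfl
        · exact d1 q (hmem2 q h7) x hxq' hxq'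
        · exact d2 q h7 y hyq' hyq'

theorem st_PR0 : ST_PR0 := by
  intro V l Q hl hQ h
  obtain ⟨D, h1, h2, h3, h4⟩ := pr0_aux hl Q.length Q 0 le_rfl hQ (by
    intro q hq
    obtain ⟨x, hx, h1, h2⟩ := h q hq
    obtain ⟨m, hm⟩ := List.mem_iff_getElem?.1 hx
    exact ⟨m, x, Nat.zero_le _, hm, h1, h2⟩)
  exact ⟨D, h1, fun r hr => ⟨(h2 r hr).1, (h2 r hr).2.2.1, (h2 r hr).2.2.2⟩, h3, h4⟩

end Pool.Agent.Helper71.BM
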