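import Pool.Agent.Helper71.BM.Defs

/-!
# Transversals of pairwise intersecting long cycles: statements of the modules
-/

set_option autoImplicit false

namespace Pool.Agent.Helper71.BM

open Finset ErdPos

/-! ## A. paths, cycles, Menger -/

/-- cycles as closed walks give cycles as lists -/
def ST_LCW1 : Prop :=
  ∀ (V : Type) (G : SimpleGraph V) (u : V) (p : G.Walk u u), p.IsCycle →
    ∃ l, LC G l ∧ l.length = p.length ∧ ∀ x, x ∈ l ↔ x ∈ p.support

/-- cycles as lists give cycles as closed walks -/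
def ST_LCW2 : Prop :=
  ∀ (V : Type) (G : SimpleGraph V) (l : List V), LC G l →
    ∃ (u : V) (p : G.Walk u u), p.IsCycle ∧ p.length = l.length ∧ ∀ x, x ∈ p.support ↔ x ∈ l

/-- Menger's theorem for lists -/
def ST_MLP : Prop :=
  ∀ (V : Type) [Fintype V] [DecidableEq V] (G : SimpleGraph V) (K A B : Finset V) (n : ℕ),
    NoSep G K A B n → ∃ P, Sys G K A B P ∧ P.length = n

/-- exchange: a small linkage can be extended by sources of a large one -/
def ST_EX : Prop :=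
  ∀ (V : Type) [Fintype V] [DecidableEq V] (G : SimpleGraph V) (K T : Finset V)
    (P Q : List (List V)), TSys G K T P → TSys G K T Q → P.length ≤ Q.length →
    ∃ R, TSys G K T R ∧ R.length = Q.length ∧ (∀ l ∈ P, ∃ r ∈ R, r.head? = l.head?) ∧
      ∀ r ∈ R, ∃ l ∈ P ++ Q, r.head? = l.head?

/-- blocks joined cyclically form a cycle -/
def ST_JOIN : Prop :=
  ∀ (V : Type) (G : SimpleGraph V) (B : List (List V)), B ≠ [] →
    (∀ b ∈ B, b ≠ [] ∧ b.IsChain G.Adj) → B.flatten.Nodup → 3 ≤ B.flatten.length →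
    (∀ i, i < B.length → ∀ b b' x y, B[i]? = some b → B[(i + 1) % B.length]? = some b' →
      b.getLast? = some x → b'.head? = some y → G.Adj x y) →
    LC G B.flatten

/-! ## B. chords and closing -/

/-- one cyclic sequence with non-crossing links -/
def ST_SC : Prop :=
  ∀ c : List (ℕ × ℕ), c ≠ [] → (ends c).Nodup →
    ∃ c' : List (ℕ × ℕ), c'.length = c.length ∧ (ends c').Nodup ∧
      (∀ p ∈ c', p ∈ c ∨ p.swap ∈ c) ∧ NC (links c')

/-- two large cyclic sequences with non-crossing links -/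
def ST_TWO : Prop :=
  ∀ (m : ℕ) (c : List (ℕ × ℕ)), 1 ≤ m → 6 * m + 5 ≤ c.length → (ends c).Nodup →
    ∃ c1 c2 : List (ℕ × ℕ), m ≤ c1.length ∧ m ≤ c2.length ∧ (ends (c1 ++ c2)).Nodup ∧
      (∀ p ∈ c1 ++ c2, p ∈ c ∨ p.swap ∈ c) ∧ NC (links c1 ++ links c2)

/-- several cyclic sequences of ears are closed by disjoint links -/
def ST_CLG : Prop :=
  ∀ (V : Type) [Fintype V] [DecidableEq V] (G : SimpleGraph V) (F : Finset V → Prop) (q N : ℕ)
    (W : Finset V) (t : ℕ → V), Hub G F q N W t →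
    ∀ (cs : List (List (ℕ × ℕ))) (E : ℕ × ℕ → List V),
      (∀ c ∈ cs, c ≠ []) → NC (cs.map links).flatten →
      (∀ c ∈ cs, ∀ p ∈ c, Ear G q W t p.1 p.2 (E p)) → (cs.flatten.map E).flatten.Nodup →
      (∀ c ∈ cs, 3 ≤ (c.map E).flatten.length) →
      ∃ Z : List (List V), Z.length = cs.length ∧ Z.flatten.Nodup ∧
        ∀ (i : ℕ) (c : List (ℕ × ℕ)) (z : List V), cs[i]? = some c → Z[i]? = some z → LC G z ∧
          (∀ v ∈ (c.map E).flatten, v ∈ z) ∧ ∀ v ∈ z, v ∈ (c.map E).flatten ∨ v ∈ W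

/-- a packing of ears is closed to a cycle -/
def ST_CLO : Prop :=
  ∀ (V : Type) [Fintype V] [DecidableEq V] (G : SimpleGraph V) (F : Finset V → Prop) (q N : ℕ)
    (W : Finset V) (t : ℕ → V), Hub G F q N W t → ∀ P : List (List V), Pkg G q W t P → P ≠ [] →
    3 ≤ P.flatten.length →
    ∃ z, LC G z ∧ (∀ v ∈ P.flatten, v ∈ z) ∧ ∀ v ∈ z, v ∈ P.flatten ∨ v ∈ W

/-- many ears give two disjoint cycles through many of them -/
def ST_CLO2 : Prop :=
  ∀ (V : Type) [Fintype V] [DecidableEq V] (G : SimpleGraph V) (F : Finset V → Prop) (q N : ℕ)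
    (W : Finset V) (t : ℕ → V), Hub G F q N W t →
    ∀ (P : List (List V)) (m lam : ℕ), Pkg G q W t P → 1 ≤ m → 6 * m + 5 ≤ P.length →
      (∀ l ∈ P, lam ≤ l.length) → 3 ≤ m * lam →
      ∃ z z' : List V, LC G z ∧ LC G z' ∧ m * lam ≤ z.length ∧ m * lam ≤ z'.length ∧
        List.Disjoint z z'

/-! ## C. the second part: a hub and a gap are contradictory -/

/-- long packings are longer than `k + e - w` -/
def ST_LNG : Prop :=
  ∀ (V : Type) [Fintype V] [DecidableEq V] (G : SimpleGraph V) (k e K q N w : ℕ) (W : Finset V)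
    (t : ℕ → V), Ctx G k e K q N w W t → 3 ≤ k → w ≤ e → ∀ P, Pkg G q W t P →
    k ≤ P.flatten.length → k + (e - w) + 1 ≤ P.flatten.length

/-- there are less than `6 m + 5` disjoint ears of length at least `lam` -/
def ST_FEW : Prop :=
  ∀ (V : Type) [Fintype V] [DecidableEq V] (G : SimpleGraph V) (k e K q N w : ℕ) (W : Finset V)
    (t : ℕ → V), Ctx G k e K q N w W t → ∀ s lam Lam E1 E2 Y m,
    Par k e w K q N s lam Lam E1 E2 Y m → ∀ P, Pkg G q W t P → (∀ l ∈ P, lam ≤ l.length) →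
    P.length < 6 * m + 5

/-- a pair of paths `p`, `p'` starting at the positions `i < j` of `l` -/
structure Rc (V : Type) where
  l : List V
  i : ℕ
  j : ℕ
  p : List V
  p' : List V

/-- the ear formed by the pair -/
def Rc.F {V : Type} (r : Rc V) : List V :=
  r.p.reverse ++ (r.l.drop (r.i + 1)).take (r.j - r.i - 1) ++ r.p'

/-- the pair is attached at the positions `i < j` of the member `l` of `P` -/
def Rc.ok {V : Type} (P : List (List V)) (r : Rc V) : Prop :=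
  r.l ∈ P ∧ r.i < r.j ∧ (∃ x, r.l[r.i]? = some x ∧ r.p.head? = some x) ∧
    ∃ y, r.l[r.j]? = some y ∧ r.p'.head? = some y

/-- pairing consecutive starts of disjoint paths on a list -/
def ST_PR0 : Prop :=
  ∀ (V : Type) (l : List V) (Q : List (List V)), l.Nodup → Q.flatten.Nodup →
    (∀ q ∈ Q, ∃ x ∈ l, q.head? = some x ∧ ∀ v ∈ q, v ∈ l → v = x) →
    ∃ D : List (Rc V), Q.length ≤ 2 * D.length + 1 ∧
      (∀ r ∈ D, r.ok [l] ∧ r.p ∈ Q ∧ r.p' ∈ Q) ∧ (D.map Rc.F).flatten.Nodup ∧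
      (D.flatMap (fun r => [r.p, r.p'])).Nodup

/-- there is a long ear -/
def ST_EXS : Prop :=
  ∀ (V : Type) [Fintype V] [DecidableEq V] (G : SimpleGraph V) (k e K q N w : ℕ) (W : Finset V)
    (t : ℕ → V), Ctx G k e K q N w W t → ∀ s lam Lam E1 E2 Y m,
    Par k e w K q N s lam Lam E1 E2 Y m → ∃ l, Pkg G q W t [l] ∧ k ≤ l.length

/-- there is an optimal packing -/
def ST_OPT : Prop :=
  ∀ (V : Type) [Fintype V] [DecidableEq V] (G : SimpleGraph V) (k e K q N w : ℕ) (W : Finset V)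
    (t : ℕ → V), Ctx G k e K q N w W t → ∀ s lam Lam E1 E2 Y m,
    Par k e w K q N s lam Lam E1 E2 Y m → (∃ l, Pkg G q W t [l] ∧ k ≤ l.length) →
    ∃ P, Opt G k q W t E1 Y P

/-- properties of optimal packings -/
def ST_OPP : Prop :=
  ∀ (V : Type) [Fintype V] [DecidableEq V] (G : SimpleGraph V) (k e K q N w : ℕ) (W : Finset V)
    (t : ℕ → V), Ctx G k e K q N w W t → ∀ s lam Lam E1 E2 Y m,
    Par k e w K q N s lam Lam E1 E2 Y m → ∀ P, Opt G k q W t E1 Y P →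
    1 ≤ P.length ∧ P.length ≤ s ∧ k + (e - w) + 1 ≤ P.flatten.length ∧
      (∀ l ∈ P, P.flatten.length < k + l.length) ∧ ∀ l ∈ P, e - w + 2 ≤ l.length

/-- a core piece `c` whose ends are adjacent to the vertices `a` and `b` -/
structure Tr (V : Type) where
  a : V
  c : List V
  b : V

/-- new ears from core pieces and disjoint paths to the terminals -/
def ST_SURG : Prop :=
  ∀ (V : Type) [Fintype V] [DecidableEq V] (G : SimpleGraph V) (q : ℕ) (W : Finset V)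
    (t : ℕ → V) (K : Finset V) (R : List (List V)) (T : List (Tr V)),
    (∀ i < q, ∀ j < q, t i = t j → i = j) → TSys G K (Tm q t) R → Disjoint K W →
    (T.flatMap (fun τ => [τ.a, τ.b])).Nodup → (T.map Tr.c).flatten.Nodup →
    (∀ τ ∈ T, (τ.a :: τ.c ++ [τ.b]).IsChain G.Adj ∧ τ.c ≠ [] ∧
      (∀ v ∈ τ.c, v ∉ K ∧ v ∉ W ∧ v ∉ Tm q t) ∧ (∃ r ∈ R, r.head? = some τ.a) ∧
      ∃ r ∈ R, r.head? = some τ.b) →
    ∃ P', Pkg G q W t P' ∧ P'.length = T.length ∧
      (∀ l ∈ P', ∃ τ ∈ T, τ.c.length + 2 ≤ l.length) ∧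
      P'.flatten.length ≤ (T.map Tr.c).flatten.length + K.card ∧
      (T.map Tr.c).flatten.length + 2 * T.length ≤ P'.flatten.length

/-- an optimal packing: no cheap linkage close to the left end of an ear -/
def ST_NEAR : Prop :=
  ∀ (V : Type) [Fintype V] [DecidableEq V] (G : SimpleGraph V) (k e K q N w : ℕ) (W : Finset V)
    (t : ℕ → V), Ctx G k e K q N w W t → ∀ s lam Lam E1 E2 Y m,
    Par k e w K q N s lam Lam E1 E2 Y m → ∀ P, Opt G k q W t E1 Y P → ∀ l ∈ P, ∀ B,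
    Sys G (univ \ W) (Ucore Lam P) (Tm q t) B → B.length = 2 * P.length →
    (∀ b ∈ B, ∃ i x, Lam ≤ i ∧ i < E2 ∧ l[i]? = some x ∧ b.head? = some x) →
    B.flatten.length ≤ P.length * lam → False

/-- the same close to the right end -/
def ST_NEARR : Prop :=
  ∀ (V : Type) [Fintype V] [DecidableEq V] (G : SimpleGraph V) (k e K q N w : ℕ) (W : Finset V)
    (t : ℕ → V), Ctx G k e K q N w W t → ∀ s lam Lam E1 E2 Y m,
    Par k e w K q N s lam Lam E1 E2 Y m → ∀ P, Opt G k q W t E1 Y P → ∀ l ∈ P, ∀ B,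
    Sys G (univ \ W) (Ucore Lam P) (Tm q t) B → B.length = 2 * P.length →
    (∀ b ∈ B, ∃ i x, Lam ≤ i ∧ i < E2 ∧ l.reverse[i]? = some x ∧ b.head? = some x) →
    B.flatten.length ≤ P.length * lam → False

/-- an optimal packing: no cheap double linkage in the middle -/
def ST_MID : Prop :=
  ∀ (V : Type) [Fintype V] [DecidableEq V] (G : SimpleGraph V) (k e K q N w : ℕ) (W : Finset V)
    (t : ℕ → V), Ctx G k e K q N w W t → ∀ s lam Lam E1 E2 Y m,
    Par k e w K q N s lam Lam E1 E2 Y m → ∀ P, Opt G k q W t E1 Y P → ∀ D : List (Rc V),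
    D.length = 2 * P.length + 1 →
    (∀ r ∈ D, r.ok P ∧ r.j < r.i + lam ∧ E2 ≤ r.i + lam ∧ r.j + E2 + 1 ≤ r.l.length + lam) →
    Sys G (univ \ W) (Ucore Lam P) (Tm q t) (D.flatMap (fun r => [r.p, r.p'])) →
    (D.flatMap (fun r => [r.p, r.p'])).flatten.length ≤ (2 * P.length + 1) * lam → False

/-- pairing the paths from the middle parts to the terminals -/
def ST_PAIR : Prop :=
  ∀ (V : Type) [Fintype V] [DecidableEq V] (G : SimpleGraph V) (q : ℕ) (W : Finset V)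
    (t : ℕ → V) (Lam : ℕ) (P Q : List (List V)), (∀ i < q, ∀ j < q, t i = t j → i = j) →
    Pkg G q W t P → 1 ≤ Lam →
    (∀ l ∈ P, 2 * Lam ≤ l.length) → Sys G (univ \ W) (Ucore Lam P) (Tm q t) Q →
    ∃ D : List (Rc V), Q.length ≤ 2 * D.length + P.length ∧
      (∀ r ∈ D, r.ok P ∧ r.p ∈ Q ∧ r.p' ∈ Q ∧ Lam ≤ r.i ∧ r.j + Lam < r.l.length) ∧
      Pkg G q W t (D.map Rc.F) ∧ (D.flatMap (fun r => [r.p, r.p'])).Nodup

/-- an optimal packing: at most `N` disjoint paths from the middle parts to the terminals -/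
def ST_BND : Prop :=
  ∀ (V : Type) [Fintype V] [DecidableEq V] (G : SimpleGraph V) (k e K q N w : ℕ) (W : Finset V)
    (t : ℕ → V), Ctx G k e K q N w W t → ∀ s lam Lam E1 E2 Y m,
    Par k e w K q N s lam Lam E1 E2 Y m → ∀ P, Opt G k q W t E1 Y P → ∀ Q,
    Sys G (univ \ W) (Ucore Lam P) (Tm q t) Q → Q.length = N + 1 → False

/-- an optimal packing: no `N` vertices separate the middle parts from the terminals -/
def ST_FIN : Prop :=
  ∀ (V : Type) [Fintype V] [DecidableEq V] (G : SimpleGraph V) (k e K q N w : ℕ) (W : Finset V)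
    (t : ℕ → V), Ctx G k e K q N w W t → ∀ s lam Lam E1 E2 Y m,
    Par k e w K q N s lam Lam E1 E2 Y m → ∀ P, Opt G k q W t E1 Y P →
    NoSep G (univ \ W) (Ucore Lam P) (Tm q t) (N + 1)

/-! ## D. the first part: meshes, webs, ladders, hubs -/

/-- the haven of the long cycles -/
def ST_HAVC : Prop :=
  ∀ (V : Type) [Fintype V] [DecidableEq V] (G : SimpleGraph V) (k K : ℕ),
    (∀ M M', FL G k M → FL G k M' → (M ∩ M').Nonempty) →
    (∀ X : Finset V, X.card ≤ K → ∃ M, FL G k M ∧ Disjoint M X) → Hav G (FL G k) univ K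

/-- existence of meshes -/
def ST_MESH : Prop :=
  ∀ (V : Type) [Fintype V] [DecidableEq V] (G : SimpleGraph V) (F : Finset V → Prop) (m : ℕ),
    1 ≤ m → Hav G F univ (2 * m) → ∃ C A H, Mesh G F m C A H

/-- splitting a connected graph of maximum degree three -/
def ST_SPLIT : Prop :=
  ∀ (V : Type) [Fintype V] [DecidableEq V] (H : SimpleGraph V) (A X : Finset V) (n p : ℕ),
    1 ≤ n → Conn H A → X ⊆ A → (∀ v ∈ A, (H.neighborSet v).ncard ≤ 3) → 2 * n * p ≤ X.card →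
    ∃ B : ℕ → Finset V, (∀ i < p, B i ⊆ A ∧ Conn H (B i) ∧ n ≤ (B i ∩ X).card) ∧
      ∀ i < p, ∀ j < p, i ≠ j → Disjoint (B i) (B j)

/-- linkages through `C` -/
def ST_EXTL : Prop :=
  ∀ (V : Type) [Fintype V] [DecidableEq V] (G : SimpleGraph V) (F : Finset V → Prop) (m : ℕ)
    (C A : Finset V) (H : SimpleGraph V), Hav G F univ (2 * m) → Mesh G F m C A H →
    ∀ (Y Z : Finset V) (n : ℕ), Y ⊆ Nb G univ C → Z ⊆ Nb G univ C → Disjoint Y Z →
    Y.card = n → Z.card = n →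
    ∃ P, Sys (Gx G (Nb G univ C)) (C ∪ Y ∪ Z) Y Z P ∧ P.length = n

/-- almost all neighbours of `C` are in `β(S)` -/
def ST_CTX : Prop :=
  ∀ (V : Type) [Fintype V] [DecidableEq V] (G : SimpleGraph V) (F : Finset V → Prop) (m : ℕ)
    (C A : Finset V) (H : SimpleGraph V), Hav G F univ (2 * m) → Mesh G F m C A H →
    ∀ S : Finset V, S.card ≤ m → (Nb G univ C \ bt G F univ S).card ≤ S.card

/-- consecutive vertices of one of the lists -/
def EdgeIn {V : Type} (P : List (List V)) (u v : V) : Prop :=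
  ∃ l ∈ P, ∃ l1 l2 : List V, l = l1 ++ u :: v :: l2 ∨ l = l1 ++ v :: u :: l2

open Classical in
/-- number of steps of `l` which are not on the lists of `Q` -/
noncomputable def outc {V : Type} (Q : List (List V)) (l : List V) : ℕ :=
  ((l.zip l.tail).filter (fun p => decide (¬ EdgeIn Q p.1 p.2))).length

/-- the rows `P` are a linkage from `A` to `B` inside `K` with the least number of steps outside
the columns `Q` -/
def MinR {V : Type} (G : SimpleGraph V) (K A B : Finset V) (Q P : List (List V)) : Prop :=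
  Sys G K A B P ∧ ∀ P', Sys G K A B P' → P'.length = P.length →
    (P.map (outc Q)).sum ≤ (P'.map (outc Q)).sum

/-- columns: disjoint paths inside `K` -/
def Cols {V : Type} (G : SimpleGraph V) (K : Finset V) (Q : List (List V)) : Prop :=
  Q.flatten.Nodup ∧ ∀ c ∈ Q, c ≠ [] ∧ c.IsChain G.Adj ∧ ∀ v ∈ c, v ∈ K

/-- the cut at a step of a minimal row outside the columns -/
def ST_CUT : Prop :=
  ∀ (V : Type) [Fintype V] [DecidableEq V] (G : SimpleGraph V) (K A B : Finset V)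
    (Q P : List (List V)), MinR G K A B Q P → Cols G K Q →
    ∀ l ∈ P, ∀ (l1 : List V) (u v : V) (l2 : List V), l = l1 ++ u :: v :: l2 →
    ¬ EdgeIn Q u v →
    ∃ S L : Finset V, S.card + 1 = P.length ∧ Disjoint S L ∧ (∀ x ∈ l, x ∉ S) ∧
      (∀ x ∈ l1, x ∈ L) ∧ u ∈ L ∧ v ∉ L ∧ (∀ x ∈ l2, x ∉ L) ∧
      (∀ l' ∈ P, l' ≠ l → ∃ (a : List V) (x : V) (b : List V), l' = a ++ x :: b ∧ x ∈ S ∧
        (∀ y ∈ a, y ∈ L) ∧ ∀ y ∈ b, y ∉ L ∧ y ∉ S) ∧
      ∀ c ∈ Q, (∀ x ∈ c, x ∉ S) → (∀ x ∈ c, x ∈ L) ∨ ∀ x ∈ c, x ∉ L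

/-- many columns crossing almost all minimal rows give a web -/
def ST_WEBX : Prop :=
  ∀ (V : Type) [Fintype V] [DecidableEq V] (G : SimpleGraph V) (K A B : Finset V)
    (Q Q' P : List (List V)) (h d n' : ℕ), MinR G K A B Q P → Cols G K Q → Q'.Sublist Q → 1 ≤ d →
    2 * n' ≤ P.length → h + d * n' + 1 ≤ P.length → 4 * d * P.length ≤ Q'.length →
    (∀ c ∈ Q', {l | l ∈ P ∧ List.Disjoint c l}.ncard < n') →
    ∃ R U, Web G h d R U ∧ ∀ a < h, row R d a ∈ P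

/-- linkages for all pairs: all pairs can be joined disjointly, or there is a web -/
def ST_DICH : Prop :=
  ∀ p h d : ℕ, ∃ n : ℕ, ∀ (V : Type) [Fintype V] [DecidableEq V] (G : SimpleGraph V)
    (C : Finset V) (X : ℕ → Finset V), 1 ≤ d → (∀ i < p, Disjoint (X i) C) →
    (∀ i < p, ∀ j < p, i ≠ j → Disjoint (X i) (X j)) →
    (∀ i < p, ∀ j < p, ∀ u ∈ X i, ∀ v ∈ X j, ¬ G.Adj u v) →
    (∀ i j, i < j → j < p → ∃ P, Sys G (C ∪ X i ∪ X j) (X i) (X j) P ∧ P.length = n) →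
    (∃ P : ℕ → ℕ → List V,
      (∀ i j, i < j → j < p → ∃ a ∈ X i, ∃ b ∈ X j, PL G a b (P i j) ∧
        ∀ v ∈ P i j, v = a ∨ v = b ∨ v ∈ C) ∧
      ∀ i j i' j', i < j → j < p → i' < j' → j' < p → (i, j) ≠ (i', j') →
        List.Disjoint (P i j) (P i' j')) ∨
    (∃ i < p, ∃ R U, Web G h d R U ∧ ∀ a < h, ∃ x ∈ row R d a, x ∈ X i)

/-- a web in a clique of connected sets -/
def ST_KWEB : Prop :=
  ∀ (V : Type) [Fintype V] [DecidableEq V] (G : SimpleGraph V) (h d : ℕ) (C : Finset V)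
    (A : ℕ → Finset V) (P : ℕ → ℕ → List V), 1 ≤ h → 1 ≤ d →
    (∀ i < h * d, Conn G (A i) ∧ Disjoint (A i) C) →
    (∀ i < h * d, ∀ j < h * d, i ≠ j → Disjoint (A i) (A j)) →
    (∀ i j, i < j → j < h * d → ∃ a ∈ A i, ∃ b ∈ A j, PL G a b (P i j) ∧
      ∀ v ∈ P i j, v = a ∨ v = b ∨ v ∈ C) →
    (∀ i j i' j', i < j → j < h * d → i' < j' → j' < h * d → (i, j) ≠ (i', j') →
      List.Disjoint (P i j) (P i' j')) →
    ∃ R U, Web G h d R U ∧ ∀ a < h, ∀ i < d, ∃ v ∈ row R d a, v ∈ A (a * d + i)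

/-- webs controlled by the haven -/
def ST_WEB : Prop :=
  ∀ h d N : ℕ, 1 ≤ h → 1 ≤ d → ∃ K0 : ℕ, ∀ (V : Type) [Fintype V] [DecidableEq V]
    (G : SimpleGraph V) (F : Finset V → Prop), Hav G F univ K0 →
    ∃ R U, Web G h d R U ∧ Ctl G F N (N + 1) h d R

/-- a large connected graph contains a long path or a large star -/
def ST_PST : Prop :=
  ∀ r : ℕ, ∃ h : ℕ, ∀ T : ℕ → ℕ → Prop, (∀ a b, T a b → T b a) →
    (∀ I : Finset ℕ, I.Nonempty → I ⊆ range h → I ≠ range h →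
      ∃ a ∈ I, ∃ b ∈ range h, b ∉ I ∧ T a b) →
    (∃ f : ℕ → ℕ, (∀ i < r, f i < h) ∧ (∀ i < r, ∀ j < r, f i = f j → i = j) ∧
      ∀ i, i + 1 < r → T (f i) (f (i + 1))) ∨
    (∃ c < h, ∃ f : ℕ → ℕ, (∀ i < r, f i < h ∧ f i ≠ c) ∧
      (∀ i < r, ∀ j < r, f i = f j → i = j) ∧ ∀ i < r, T c (f i))

/-- joining the rows inside a region -/
def ST_PIEC : Prop :=
  ∀ (V : Type) [DecidableEq V] (G : SimpleGraph V) (h d : ℕ) (R : ℕ → ℕ → List V)
    (U : ℕ → Finset V), Web G h d R U → ∀ i < d, ∀ I : Finset ℕ, I.Nonempty → I ⊆ range h →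
    I ≠ range h → ∃ a ∈ I, ∃ b ∈ range h, b ∉ I ∧
      ∃ x ∈ R a i, ∃ y ∈ R b i, ∃ l, PL G x y (x :: l ++ [y]) ∧ (∀ v ∈ l, v ∈ U i) ∧
        ∀ v ∈ l, ∀ c < h, v ∉ row R d c

/-- a ladder inside a web -/
def ST_LAD : Prop :=
  ∀ h' d' : ℕ, 1 ≤ h' → 1 ≤ d' → ∃ h d : ℕ, 1 ≤ h ∧ 1 ≤ d ∧ ∀ (V : Type) [Fintype V]
    [DecidableEq V] (G : SimpleGraph V) (R : ℕ → ℕ → List V) (U : ℕ → Finset V), Web G h d R U →
    ∃ R' U' Q', Lad G h' d' R' U' Q' ∧
      ∀ (F : Finset V → Prop) (N g : ℕ), Ctl G F N g h d R → Ctl G F N g h' d' R'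

/-- many columns with long segments or paths give two long disjoint cycles -/
def ST_HEAVY : Prop :=
  ∀ h M : ℕ, ∃ D0 : ℕ, ∀ (V : Type) [Fintype V] [DecidableEq V] (G : SimpleGraph V) (d γ : ℕ)
    (R : ℕ → ℕ → List V) (U : ℕ → Finset V) (Q : ℕ → ℕ → List V), Lad G h d R U Q → 1 ≤ γ →
    3 ≤ M * γ → ∀ J : Finset ℕ, D0 ≤ J.card →
    (∀ j ∈ J, j < d ∧ ∃ s, 1 ≤ s ∧ s < h ∧
      (γ ≤ (R s j).length ∨ (s + 1 < h ∧ γ ≤ (Q s j).length))) →
    ∃ z z', LC G z ∧ LC G z' ∧ M * γ ≤ z.length ∧ M * γ ≤ z'.length ∧ List.Disjoint z z'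

/-- the links through a ladder -/
def ST_LNKS : Prop :=
  ∀ (V : Type) [Fintype V] [DecidableEq V] (G : SimpleGraph V) (r d j0 : ℕ)
    (R : ℕ → ℕ → List V) (U : ℕ → Finset V) (Q : ℕ → ℕ → List V) (t : ℕ → V),
    Lad G (r + 1) d R U Q → 1 ≤ j0 → j0 + (r ^ 3 + r) ≤ d →
    (∀ i < r, (R (i + 1) (j0 - 1)).getLast? = some (t i)) →
    (∀ i < r, ∀ j < r, t i = t j → i = j) ∧
    (∀ i < r, t i ∉ wset R Q r j0 (r ^ 3 + r)) ∧
    ∀ μ : List (ℕ × ℕ), NC μ → (∀ p ∈ μ, p.1 < r ∧ p.2 < r) →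
    ∃ Z : ℕ × ℕ → Finset V,
      (∀ p ∈ μ, Conn G (Z p) ∧ t p.1 ∈ Z p ∧ t p.2 ∈ Z p ∧
        ∀ v ∈ Z p, v ∈ wset R Q r j0 (r ^ 3 + r) ∨ v = t p.1 ∨ v = t p.2) ∧
      ∀ p ∈ μ, ∀ p' ∈ μ, p ≠ p' → Disjoint (Z p) (Z p')

/-- reversing a ladder -/
def ST_REV : Prop :=
  ∀ (V : Type) [Fintype V] [DecidableEq V] (G : SimpleGraph V) (h d : ℕ)
    (R : ℕ → ℕ → List V) (U : ℕ → Finset V) (Q : ℕ → ℕ → List V), Lad G h d R U Q →
    Lad G h d (fun s j => (R s (d - 1 - j)).reverse) (fun j => U (d - 1 - j))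
      (fun s j => Q s (d - 1 - j))

/-- among many disjoint blocks one has terminals attached to the haven -/
def ST_BLK : Prop :=
  ∀ (V : Type) [Fintype V] [DecidableEq V] (G : SimpleGraph V) (F : Finset V → Prop)
    (N r d K w ℓ : ℕ) (R : ℕ → ℕ → List V) (U : ℕ → Finset V) (Q : ℕ → ℕ → List V) (J : ℕ → ℕ),
    Hav G F univ K → Lad G (r + 1) d R U Q → Ctl G F (2 * N) (2 * N + 1) (r + 1) d R →
    4 * N + 1 ≤ r → 1 ≤ ℓ → 2 * w + 2 * N ≤ K →
    (∀ b < 4 * N + 2, 1 ≤ J b ∧ J b + ℓ < d ∧ (wset R Q r (J b) ℓ).card ≤ w) →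
    (∀ b b', b < b' → b' < 4 * N + 2 → J b + ℓ + 1 ≤ J b') →
    ∃ b < 4 * N + 2,
      (∀ S : Finset V, S.card ≤ N → ∃ i < r, ∃ x, (R (i + 1) (J b - 1)).getLast? = some x ∧
        x ∈ bt G F univ (S ∪ wset R Q r (J b) ℓ)) ∨
      (∀ S : Finset V, S.card ≤ N → ∃ i < r, ∃ x, (R (i + 1) (J b + ℓ)).head? = some x ∧
        x ∈ bt G F univ (S ∪ wset R Q r (J b) ℓ))

/-- existence of small hubs -/
def ST_HUB : Prop :=
  ∀ N c : ℕ, ∃ q K0 : ℕ, ∀ (V : Type) [Fintype V] [DecidableEq V] (G : SimpleGraph V)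
    (k w K : ℕ), 3 ≤ k → k ≤ c * w → K0 ≤ w → 2 * w + K0 ≤ K →
    (∀ M M', FL G k M → FL G k M' → (M ∩ M').Nonempty) →
    (∀ X : Finset V, X.card ≤ K → ∃ M, FL G k M ∧ Disjoint M X) →
    ∃ W t, Hub G (FL G k) q N W t ∧ W.card ≤ w

end Pool.Agent.Helper71.BM
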